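import Pool.Agent.ClusterPoset.Ineq

/-!
# The beta distribution function and its step approximations
-/

set_option autoImplicit false

namespace Pool.Agent.ClusterPoset

open Finset intervalIntegral MeasureTheory

variable (d p q : ℕ)

/-- `x ^ (p/d) (1-x) ^ (q/d)` -/
noncomputable def phi (x : ℝ) : ℝ := x ^ ((p : ℝ) / d) * (1 - x) ^ ((q : ℝ) / d)

/-- The integral of `phi` from `0` to `t`. -/
noncomputable def II (t : ℝ) : ℝ := ∫ x in (0 : ℝ)..t, phi d p q x

lemma phi_cont : Continuous (phi d p q) := by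
  unfold phi
  exact (Continuous.rpow_const continuous_id fun x => Or.inr (by positivity)).mul
    (Continuous.rpow_const (continuous_const.sub continuous_id) fun x => Or.inr (by positivity))

lemma phi_int (a b : ℝ) : IntervalIntegrable (phi d p q) volume a b :=
  (phi_cont d p q).intervalIntegrable a b

lemma phi_pos {x : ℝ} (h0 : 0 < x) (h1 : x < 1) : 0 < phi d p q x := by
  unfold phi
  have : 0 < 1 - x := by linarith
  positivity

lemma II_cont : Continuous (II d p q) :=
  intervalIntegral.continuous_primitive (fun a b => phi_int d p q a b) 0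

lemma II_sub (a b : ℝ) : II d p q b - II d p q a = ∫ x in a..b, phi d p q x := by
  unfold II
  rw [intervalIntegral.integral_interval_sub_left (phi_int _ _ _ _ _) (phi_int _ _ _ _ _)]

lemma II_lt {a b : ℝ} (ha : 0 ≤ a) (hab : a < b) (hb : b ≤ 1) : II d p q a < II d p q b := by
  have h := II_sub d p q a b
  have h2 : 0 < ∫ x in a..b, phi d p q x := by
    apply intervalIntegral.intervalIntegral_pos_of_pos_on (phi_int d p q a b) _ hab
    intro x hx
    exact phi_pos d p q (lt_of_le_of_lt ha hx.1) (lt_of_lt_of_le hx.2 hb)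
  linarith

lemma II_zero : II d p q 0 = 0 := by
  unfold II
  exact intervalIntegral.integral_same

lemma II_one_pos : 0 < II d p q 1 := by
  have := II_lt d p q le_rfl one_pos le_rfl
  rwa [II_zero] at this

/-- The distribution function. -/
noncomputable def gg (t : ℝ) : ℝ := II d p q t / II d p q 1

lemma gg_cont : Continuous (gg d p q) := (II_cont d p q).div_const _

lemma gg_zero : gg d p q 0 = 0 := by rw [gg, II_zero, zero_div]

lemma gg_one : gg d p q 1 = 1 := by rw [gg, div_self (II_one_pos d p q).ne']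

lemma gg_lt {a b : ℝ} (ha : 0 ≤ a) (hab : a < b) (hb : b ≤ 1) : gg d p q a < gg d p q b := by
  unfold gg
  exact div_lt_div_of_pos_right (II_lt d p q ha hab hb) (II_one_pos d p q)

lemma gg_le {a b : ℝ} (ha : 0 ≤ a) (hab : a ≤ b) (hb : b ≤ 1) : gg d p q a ≤ gg d p q b := by
  rcases hab.lt_or_eq with h | h
  · exact (gg_lt d p q ha h hb).le
  · rw [h]

lemma gg_gap (δ : ℝ) (hδ : 0 < δ) : ∃ γ : ℝ, 0 < γ ∧ ∀ x y : ℝ, 0 ≤ x → y ≤ 1 → x + δ ≤ y →
    gg d p q x + γ ≤ gg d p q y := by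
  let S : Set (ℝ × ℝ) := {z | (z.1 ∈ Set.Icc (0 : ℝ) 1 ∧ z.2 ∈ Set.Icc (0 : ℝ) 1) ∧ z.1 + δ ≤ z.2}
  have hS : IsCompact S := by
    have h1 : IsCompact (Set.Icc (0 : ℝ) 1 ×ˢ Set.Icc (0 : ℝ) 1) := isCompact_Icc.prod isCompact_Icc
    have h2 : IsClosed {z : ℝ × ℝ | z.1 + δ ≤ z.2} :=
      isClosed_le (continuous_fst.add continuous_const) continuous_snd
    have h3 : S = (Set.Icc (0 : ℝ) 1 ×ˢ Set.Icc (0 : ℝ) 1) ∩ {z : ℝ × ℝ | z.1 + δ ≤ z.2} := by
      ext z
      rfl
    rw [h3]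
    exact h1.inter_right h2
  by_cases hne : S.Nonempty
  · obtain ⟨z, hz, hmin⟩ := hS.exists_isMinOn hne
      (f := fun z : ℝ × ℝ => gg d p q z.2 - gg d p q z.1)
      (((gg_cont d p q).comp continuous_snd).sub ((gg_cont d p q).comp continuous_fst)).continuousOn
    refine ⟨gg d p q z.2 - gg d p q z.1, ?_, ?_⟩
    · have := gg_lt d p q hz.1.1.1 (show z.1 < z.2 by linarith [hz.2]) hz.1.2.2
      linarith
    · intro x y hx hy hxy
      have : (x, y) ∈ S := ⟨⟨⟨hx, by simp only; linarith⟩, ⟨by simp only; linarith, hy⟩⟩, hxy⟩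
      have := hmin this
      simp only [Set.mem_ofPred_eq] at this
      linarith
  · refine ⟨1, one_pos, ?_⟩
    intro x y hx hy hxy
    exfalso
    exact hne ⟨(x, y), ⟨⟨hx, by simp only; linarith⟩, ⟨by simp only; linarith, hy⟩⟩, hxy⟩

/-! ### Step functions -/

variable {K : ℕ}

/-- Upper step function, on `ℕ`. -/
noncomputable def sU (K : ℕ) (c : ℕ) : ℝ :=
  (((c : ℝ) + 1) / K) ^ ((p : ℝ) / d) * (((K : ℝ) - c) / K) ^ ((q : ℝ) / d)

/-- Lower step function, on `ℕ`. -/
noncomputable def sL (K : ℕ) (c : ℕ) : ℝ :=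
  ((c : ℝ) / K) ^ ((p : ℝ) / d) * (((K : ℝ) - 1 - c) / K) ^ ((q : ℝ) / d)

lemma sU_sub_sL {c : ℕ} (hc : c < K) :
    sU d p q K c - sL d p q K c ≤
      ((((c + 1 : ℕ) : ℝ) / K) ^ ((p : ℝ) / d) - ((c : ℝ) / K) ^ ((p : ℝ) / d))
      + ((((K : ℝ) - c) / K) ^ ((q : ℝ) / d) - (((K : ℝ) - (c + 1 : ℕ)) / K) ^ ((q : ℝ) / d)) := by
  have hK : 0 < (K : ℝ) := by
    have : 0 < K := by omega
    exact_mod_cast this
  have hc' : (c : ℝ) + 1 ≤ K := by exact_mod_cast hc
  have hc0 : (0 : ℝ) ≤ c := Nat.cast_nonneg c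
  unfold sU sL
  have e1 : (K : ℝ) - 1 - c = (K : ℝ) - ((c + 1 : ℕ) : ℝ) := by push_cast; ring
  rw [e1]
  push_cast
  set A1 := (((c : ℝ) + 1) / K) ^ ((p : ℝ) / d) with hA1
  set A0 := ((c : ℝ) / K) ^ ((p : ℝ) / d) with hA0
  set B0 := (((K : ℝ) - c) / K) ^ ((q : ℝ) / d) with hB0
  set B1 := (((K : ℝ) - (c + 1)) / K) ^ ((q : ℝ) / d) with hB1
  have a1 : A1 ≤ 1 := Real.rpow_le_one (by positivity) (by rw [div_le_one hK]; linarith)
    (by positivity)
  have a0 : 0 ≤ A0 := Real.rpow_nonneg (by positivity) _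
  have a10 : A0 ≤ A1 := Real.rpow_le_rpow (by positivity) (by gcongr; linarith) (by positivity)
  have b0 : B0 ≤ 1 := Real.rpow_le_one (div_nonneg (by linarith) hK.le)
    (by rw [div_le_one hK]; linarith) (by positivity)
  have b10 : B1 ≤ B0 := Real.rpow_le_rpow (div_nonneg (by linarith) hK.le)
    (by gcongr; linarith) (by positivity)
  have b00 : 0 ≤ B1 := Real.rpow_nonneg (div_nonneg (by linarith) hK.le) _
  nlinarith [mul_nonneg (sub_nonneg.2 a10) (sub_nonneg.2 b0),
    mul_nonneg (sub_nonneg.2 b10) (sub_nonneg.2 (a10.trans a1))]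

lemma sum_sU_sub_sL {v : ℕ} (hv : v ≤ K) (hK0 : 0 < K) :
    ∑ c ∈ range v, sU d p q K c - ∑ c ∈ range v, sL d p q K c ≤ 2 := by
  have hK : 0 < (K : ℝ) := by exact_mod_cast hK0
  rw [← Finset.sum_sub_distrib]
  have h1 : ∑ c ∈ range v, (sU d p q K c - sL d p q K c) ≤
      ∑ c ∈ range v, (((((c + 1 : ℕ) : ℝ) / K) ^ ((p : ℝ) / d) - ((c : ℝ) / K) ^ ((p : ℝ) / d))
      - ((((K : ℝ) - (c + 1 : ℕ)) / K) ^ ((q : ℝ) / d) - (((K : ℝ) - c) / K) ^ ((q : ℝ) / d))) := by
    apply Finset.sum_le_sum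
    intro c hc
    rw [mem_range] at hc
    have := sU_sub_sL d p q (K := K) (c := c) (by omega)
    linarith
  refine h1.trans ?_
  rw [Finset.sum_sub_distrib, Finset.sum_range_sub (fun c : ℕ => ((c : ℝ) / K) ^ ((p : ℝ) / d)),
    Finset.sum_range_sub (fun c : ℕ => (((K : ℝ) - c) / K) ^ ((q : ℝ) / d))]
  have hvK : (v : ℝ) ≤ K := by exact_mod_cast hv
  have a1 : ((v : ℝ) / K) ^ ((p : ℝ) / d) ≤ 1 :=
    Real.rpow_le_one (by positivity) (by rw [div_le_one hK]; linarith) (by positivity)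
  have a0 : 0 ≤ (((0 : ℕ) : ℝ) / K) ^ ((p : ℝ) / d) := Real.rpow_nonneg (by positivity) _
  have b1 : 0 ≤ (((K : ℝ) - v) / K) ^ ((q : ℝ) / d) :=
    Real.rpow_nonneg (div_nonneg (by linarith) hK.le) _
  have b0 : (((K : ℝ) - (0 : ℕ)) / K) ^ ((q : ℝ) / d) ≤ 1 :=
    Real.rpow_le_one (by simp; positivity) (by simp [hK.ne']) (by positivity)
  linarith

lemma int_bounds {c : ℕ} (hc : c < K) :
    sL d p q K c ≤ K * (II d p q ((c + 1 : ℕ) / K) - II d p q (c / K)) ∧
      K * (II d p q ((c + 1 : ℕ) / K) - II d p q (c / K)) ≤ sU d p q K c := by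
  have hK : 0 < (K : ℝ) := by
    have : 0 < K := by omega
    exact_mod_cast this
  have hc' : (c : ℝ) + 1 ≤ K := by exact_mod_cast hc
  have hc0 : (0 : ℝ) ≤ c := Nat.cast_nonneg c
  rw [II_sub]
  have hle : (c : ℝ) / K ≤ ((c + 1 : ℕ) : ℝ) / K := by
    push_cast
    gcongr
    linarith
  have hlen : ((c + 1 : ℕ) : ℝ) / K - (c : ℝ) / K = 1 / K := by
    push_cast
    ring
  have hx : ∀ x ∈ Set.Icc ((c : ℝ) / K) (((c + 1 : ℕ) : ℝ) / K),
      sL d p q K c ≤ phi d p q x ∧ phi d p q x ≤ sU d p q K c := by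
    intro x hx
    have h1 : (c : ℝ) / K ≤ x := hx.1
    have h2 : x ≤ ((c : ℝ) + 1) / K := by
      have := hx.2
      push_cast at this
      exact this
    have h0 : 0 ≤ x := le_trans (by positivity) h1
    have h3 : 1 - x ≤ ((K : ℝ) - c) / K := by
      have : ((K : ℝ) - c) / K = 1 - c / K := by field_simp
      linarith
    have h4 : ((K : ℝ) - 1 - c) / K ≤ 1 - x := by
      have : ((K : ℝ) - 1 - c) / K = 1 - ((c : ℝ) + 1) / K := by
        field_simp
        ring
      linarith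
    have h5 : 0 ≤ ((K : ℝ) - 1 - c) / K := div_nonneg (by linarith) hK.le
    unfold sL sU phi
    constructor
    · apply mul_le_mul
      · exact Real.rpow_le_rpow (by positivity) h1 (by positivity)
      · exact Real.rpow_le_rpow h5 h4 (by positivity)
      · exact Real.rpow_nonneg h5 _
      · exact Real.rpow_nonneg h0 _
    · apply mul_le_mul
      · exact Real.rpow_le_rpow h0 h2 (by positivity)
      · exact Real.rpow_le_rpow (h5.trans h4) h3 (by positivity)
      · exact Real.rpow_nonneg (h5.trans h4) _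
      · exact Real.rpow_nonneg (h0.trans h2) _
  constructor
  · have := intervalIntegral.integral_mono_on hle
      (intervalIntegrable_const (c := sL d p q K c)) (phi_int d p q _ _) (fun x h => (hx x h).1)
    rw [intervalIntegral.integral_const, hlen, smul_eq_mul] at this
    calc sL d p q K c = K * (1 / K * sL d p q K c) := by field_simp
      _ ≤ _ := mul_le_mul_of_nonneg_left this hK.le
  · have := intervalIntegral.integral_mono_on hle
      (phi_int d p q _ _) (intervalIntegrable_const (c := sU d p q K c)) (fun x h => (hx x h).2)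
    rw [intervalIntegral.integral_const, hlen, smul_eq_mul] at this
    calc K * ∫ x in ((c : ℝ) / K)..(((c + 1 : ℕ) : ℝ) / K), phi d p q x
        ≤ K * (1 / K * sU d p q K c) := mul_le_mul_of_nonneg_left this hK.le
      _ = _ := by field_simp

lemma sum_bounds {v : ℕ} (hv : v ≤ K) (_hK0 : 0 < K) :
    ∑ c ∈ range v, sL d p q K c ≤ K * II d p q (v / K) ∧
      K * II d p q (v / K) ≤ ∑ c ∈ range v, sU d p q K c := by
  have h : (K : ℝ) * II d p q (v / K)
      = ∑ c ∈ range v, K * (II d p q ((c + 1 : ℕ) / K) - II d p q (c / K)) := by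
    rw [← Finset.mul_sum, Finset.sum_range_sub (fun c : ℕ => II d p q ((c : ℝ) / K))]
    simp [II_zero]
  rw [h]
  constructor
  · apply Finset.sum_le_sum
    intro c hc
    rw [mem_range] at hc
    exact (int_bounds d p q (by omega)).1
  · apply Finset.sum_le_sum
    intro c hc
    rw [mem_range] at hc
    exact (int_bounds d p q (by omega)).2

lemma sum_sU_le {v : ℕ} (hv : v ≤ K) (hK0 : 0 < K) :
    ∑ c ∈ range v, sU d p q K c ≤ K * II d p q (v / K) + 2 := by
  have h1 := sum_sU_sub_sL d p q hv hK0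
  have h2 := (sum_bounds d p q hv hK0).1
  linarith

lemma sL_nonneg {c : ℕ} (hc : c < K) : 0 ≤ sL d p q K c := by
  have hK : 0 < (K : ℝ) := by
    have : 0 < K := by omega
    exact_mod_cast this
  have hc' : (c : ℝ) + 1 ≤ K := by exact_mod_cast hc
  unfold sL
  have h5 : 0 ≤ ((K : ℝ) - 1 - c) / K := div_nonneg (by linarith) hK.le
  positivity

lemma sL_le_one {c : ℕ} (hc : c < K) : sL d p q K c ≤ 1 := by
  have hK : 0 < (K : ℝ) := by
    have : 0 < K := by omega
    exact_mod_cast this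
  have hc' : (c : ℝ) + 1 ≤ K := by exact_mod_cast hc
  have hc0 : (0 : ℝ) ≤ c := Nat.cast_nonneg c
  unfold sL
  have h5 : 0 ≤ ((K : ℝ) - 1 - c) / K := div_nonneg (by linarith) hK.le
  apply mul_le_one₀
  · exact Real.rpow_le_one (by positivity) (by rw [div_le_one hK]; linarith) (by positivity)
  · exact Real.rpow_nonneg h5 _
  · exact Real.rpow_le_one h5 (by rw [div_le_one hK]; linarith) (by positivity)

lemma sum_sL_ge (hK0 : 0 < K) :
    K * II d p q 1 - 4 ≤ ∑ c : Fin K, if 1 ≤ (c : ℕ) ∧ (c : ℕ) + 2 ≤ K then sL d p q K c else 0 := by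
  have hK : 0 < (K : ℝ) := by exact_mod_cast hK0
  have h1 := sum_sU_sub_sL d p q (le_refl K) hK0
  have h2 := (sum_bounds d p q (le_refl K) hK0).2
  rw [div_self hK.ne'] at h2
  have h3 : ∑ c ∈ range K, sL d p q K c - 2
      ≤ ∑ c : Fin K, if 1 ≤ (c : ℕ) ∧ (c : ℕ) + 2 ≤ K then sL d p q K c else 0 := by
    rw [Finset.sum_range]
    have h4 : ∀ c : Fin K, sL d p q K c - ((if (c : ℕ) = 0 then 1 else 0)
        + (if (c : ℕ) = K - 1 then 1 else 0))
        ≤ if 1 ≤ (c : ℕ) ∧ (c : ℕ) + 2 ≤ K then sL d p q K c else 0 := by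
      intro c
      have hc := c.2
      have h5 := sL_le_one d p q c.2
      split_ifs with a1 a2 a3 a4 <;> first | (exfalso; omega) | linarith
    have h6 := Finset.sum_le_sum fun c (_ : c ∈ (Finset.univ : Finset (Fin K))) => h4 c
    rw [Finset.sum_sub_distrib, Finset.sum_add_distrib] at h6
    have h7 : ∑ c : Fin K, (if (c : ℕ) = 0 then (1 : ℝ) else 0) = 1 := by
      rw [Finset.sum_eq_single (⟨0, hK0⟩ : Fin K)]
      · simp
      · intro b _ hb
        rw [if_neg]
        intro h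
        exact hb (Fin.ext h)
      · simp
    have h8 : ∑ c : Fin K, (if (c : ℕ) = K - 1 then (1 : ℝ) else 0) = 1 := by
      rw [Finset.sum_eq_single (⟨K - 1, by omega⟩ : Fin K)]
      · simp
      · intro b _ hb
        rw [if_neg]
        intro h
        exact hb (Fin.ext h)
      · simp
    rw [h7, h8] at h6
    linarith
  linarith

end Pool.Agent.ClusterPoset
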