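import Mathlib

/-!
# A Chernoff bound for product weights
-/

set_option autoImplicit false

namespace Pool.Agent.ClusterPoset

open Finset

variable {ι : Type} [Fintype ι] [DecidableEq ι] {K : ℕ}

lemma sum_prod_eq (w : Fin K → ℝ) :
    ∑ b : ι → Fin K, ∏ z, w (b z) = (∑ c, w c) ^ Fintype.card ι := by
  have h := Finset.prod_univ_sum (fun _ : ι => (Finset.univ : Finset (Fin K)))
    (fun _ c => w c)
  rw [Finset.prod_const, card_univ, Fintype.piFinset_univ] at h
  exact h.symm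

lemma chernoff (w ξ : Fin K → ℝ) (hw : ∀ c, 0 ≤ w c) (hξ : ∀ c, |ξ c| ≤ 1)
    (h0 : ∑ c, w c * ξ c = 0) (η : ℝ) (hη0 : 0 ≤ η) (hη : η ≤ 2) (B : Finset (ι → Fin K))
    (hB : ∀ b ∈ B, η * Fintype.card ι ≤ ∑ z, ξ (b z)) :
    ∑ b ∈ B, ∏ z, w (b z)
      ≤ (∑ c, w c) ^ Fintype.card ι * Real.exp (-(Fintype.card ι * η ^ 2 / 4)) := by
  set S := ∑ c, w c with hS
  have hS0 : 0 ≤ S := Finset.sum_nonneg fun c _ => hw c
  set N := Fintype.card ι with hN
  have h1 : ∀ b ∈ B, ∏ z, w (b z)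
      ≤ (∏ z, w (b z) * Real.exp (η / 2 * ξ (b z))) * Real.exp (-(η / 2 * (η * N))) := by
    intro b hb
    rw [Finset.prod_mul_distrib, ← Real.exp_sum, mul_assoc, ← Real.exp_add]
    have h2 : 1 ≤ Real.exp (∑ z, η / 2 * ξ (b z) + -(η / 2 * (η * N))) := by
      apply Real.one_le_exp
      rw [← Finset.mul_sum]
      have := mul_le_mul_of_nonneg_left (hB b hb) (show 0 ≤ η / 2 by positivity)
      linarith
    exact le_mul_of_one_le_right (Finset.prod_nonneg fun z _ => hw _) h2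
  have h3 : ∑ c, w c * Real.exp (η / 2 * ξ c) ≤ S * Real.exp ((η / 2) ^ 2) := by
    have h4 : ∀ c, Real.exp (η / 2 * ξ c) ≤ 1 + η / 2 * ξ c + (η / 2) ^ 2 := by
      intro c
      have h5 : |η / 2 * ξ c| ≤ 1 := by
        rw [abs_mul, abs_of_nonneg (by positivity : 0 ≤ η / 2)]
        have := mul_le_mul (show η / 2 ≤ 1 by linarith) (hξ c) (abs_nonneg _) zero_le_one
        linarith
      have h6 := Real.abs_exp_sub_one_sub_id_le h5
      have h7 : (η / 2 * ξ c) ^ 2 ≤ (η / 2) ^ 2 := by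
        rw [mul_pow]
        have h8 : ξ c ^ 2 ≤ 1 := by
          rw [← sq_abs]
          exact pow_le_one₀ (abs_nonneg _) (hξ c)
        nlinarith [sq_nonneg (η / 2)]
      have h9 := (abs_le.1 h6).2
      linarith
    calc ∑ c, w c * Real.exp (η / 2 * ξ c)
        ≤ ∑ c, w c * (1 + η / 2 * ξ c + (η / 2) ^ 2) :=
          Finset.sum_le_sum fun c _ => mul_le_mul_of_nonneg_left (h4 c) (hw c)
      _ = S + η / 2 * (∑ c, w c * ξ c) + (η / 2) ^ 2 * S := by
          rw [hS, Finset.mul_sum, Finset.mul_sum, ← Finset.sum_add_distrib,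
            ← Finset.sum_add_distrib]
          apply Finset.sum_congr rfl
          intro c _
          ring
      _ = S * (1 + (η / 2) ^ 2) := by rw [h0]; ring
      _ ≤ S * Real.exp ((η / 2) ^ 2) := by
          apply mul_le_mul_of_nonneg_left _ hS0
          linarith [Real.add_one_le_exp ((η / 2) ^ 2)]
  have h10 : ∀ c, 0 ≤ w c * Real.exp (η / 2 * ξ c) := fun c =>
    mul_nonneg (hw c) (Real.exp_nonneg _)
  calc ∑ b ∈ B, ∏ z, w (b z)
      ≤ ∑ b ∈ B, (∏ z, w (b z) * Real.exp (η / 2 * ξ (b z)))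
          * Real.exp (-(η / 2 * (η * N))) := Finset.sum_le_sum h1
    _ = (∑ b ∈ B, ∏ z, w (b z) * Real.exp (η / 2 * ξ (b z)))
          * Real.exp (-(η / 2 * (η * N))) := by rw [Finset.sum_mul]
    _ ≤ (∑ b : ι → Fin K, ∏ z, w (b z) * Real.exp (η / 2 * ξ (b z)))
          * Real.exp (-(η / 2 * (η * N))) := by
        apply mul_le_mul_of_nonneg_right _ (Real.exp_nonneg _)
        exact Finset.sum_le_sum_of_subset_of_nonneg (Finset.subset_univ _)
          fun b _ _ => Finset.prod_nonneg fun z _ => h10 _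
    _ = (∑ c, w c * Real.exp (η / 2 * ξ c)) ^ N * Real.exp (-(η / 2 * (η * N))) := by
        rw [sum_prod_eq (ι := ι) (fun c => w c * Real.exp (η / 2 * ξ c))]
    _ ≤ (S * Real.exp ((η / 2) ^ 2)) ^ N * Real.exp (-(η / 2 * (η * N))) := by
        apply mul_le_mul_of_nonneg_right _ (Real.exp_nonneg _)
        exact pow_le_pow_left₀ (Finset.sum_nonneg fun c _ => h10 c) h3 N
    _ = S ^ N * Real.exp (-(N * η ^ 2 / 4)) := by
        rw [mul_pow, mul_assoc, ← Real.exp_nat_mul, ← Real.exp_add]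
        congr 2
        ring

lemma sum_biUnion_le {α β : Type*} [DecidableEq β] (s : Finset α) (t : α → Finset β) (f : β → ℝ)
    (hf : ∀ b, 0 ≤ f b) : ∑ b ∈ s.biUnion t, f b ≤ ∑ a ∈ s, ∑ b ∈ t a, f b := by
  classical
  induction s using Finset.induction_on with
  | empty => simp
  | insert a s ha ih =>
    rw [Finset.biUnion_insert, Finset.sum_insert ha]
    have h1 : ∑ b ∈ t a ∪ s.biUnion t, f b ≤ ∑ b ∈ t a, f b + ∑ b ∈ s.biUnion t, f b := by
      rw [← Finset.sum_union_inter]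
      have : 0 ≤ ∑ b ∈ t a ∩ s.biUnion t, f b := Finset.sum_nonneg fun b _ => hf b
      linarith
    linarith

/-- The labellings whose empirical distribution function is not within `η` of `G`. -/
noncomputable def badSet (ι : Type) [Fintype ι] [DecidableEq ι] (K : ℕ) (G : Fin K → ℝ) (η : ℝ) :
    Finset (ι → Fin K) := by
  classical
  exact {b | ∃ v : Fin K, η * Fintype.card ι
    < |(#{z : ι | b z ≤ v} : ℝ) - G v * Fintype.card ι|}

lemma mem_badSet (G : Fin K → ℝ) (η : ℝ) (b : ι → Fin K) :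
    b ∈ badSet ι K G η ↔ ∃ v : Fin K, η * Fintype.card ι
      < |(#{z : ι | b z ≤ v} : ℝ) - G v * Fintype.card ι| := by
  classical
  simp [badSet]

theorem bad_weight (w : Fin K → ℝ) (hw : ∀ c, 0 ≤ w c) (hS : 0 < ∑ c, w c) (G : Fin K → ℝ)
    (hG : ∀ v, G v = (∑ c ∈ Finset.Iic v, w c) / ∑ c, w c)
    (η : ℝ) (hη0 : 0 ≤ η) (hη : η ≤ 2) :
    ∑ b ∈ badSet ι K G η, ∏ z, w (b z)
      ≤ 2 * K * ((∑ c, w c) ^ Fintype.card ι * Real.exp (-(Fintype.card ι * η ^ 2 / 4))) := by
  classical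
  set S := ∑ c, w c with hSdef
  set N := Fintype.card ι with hN
  set M := S ^ N * Real.exp (-(N * η ^ 2 / 4)) with hM
  -- the two tails
  let ξ : Fin K → Fin K → ℝ := fun v c => (if c ≤ v then 1 else 0) - G v
  have hG01 : ∀ v, 0 ≤ G v ∧ G v ≤ 1 := by
    intro v
    rw [hG]
    constructor
    · exact div_nonneg (Finset.sum_nonneg fun c _ => hw c) hS.le
    · rw [div_le_one hS]
      exact Finset.sum_le_sum_of_subset_of_nonneg (Finset.subset_univ _) fun c _ _ => hw c
  have hξ : ∀ v c, |ξ v c| ≤ 1 := by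
    intro v c
    have := hG01 v
    show |(if c ≤ v then (1 : ℝ) else 0) - G v| ≤ 1
    split_ifs <;> rw [abs_le] <;> constructor <;> linarith
  have hsum : ∀ v, ∑ c, w c * ξ v c = 0 := by
    intro v
    have h1 : ∑ c, w c * ξ v c = (∑ c, if c ≤ v then w c else 0) - S * G v := by
      rw [hSdef, Finset.sum_mul, ← Finset.sum_sub_distrib]
      apply Finset.sum_congr rfl
      intro c _
      show w c * ((if c ≤ v then (1 : ℝ) else 0) - G v) = _
      split_ifs <;> ring
    rw [h1, hG, mul_div_cancel₀ _ hS.ne', ← Finset.sum_filter]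
    have : (Finset.univ.filter fun c => c ≤ v) = Finset.Iic v := by
      ext c
      simp
    rw [this, sub_self]
  have hcount : ∀ v (b : ι → Fin K), ∑ z, ξ v (b z) = (#{z : ι | b z ≤ v} : ℝ) - G v * N := by
    intro v b
    show ∑ z, ((if b z ≤ v then (1 : ℝ) else 0) - G v) = _
    rw [Finset.sum_sub_distrib, Finset.sum_boole, Finset.sum_const, card_univ, nsmul_eq_mul]
    ring
  let B1 : Fin K → Finset (ι → Fin K) := fun v => {b | η * N ≤ ∑ z, ξ v (b z)}
  let B2 : Fin K → Finset (ι → Fin K) := fun v => {b | η * N ≤ ∑ z, -ξ v (b z)}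
  have hB1 : ∀ v, ∑ b ∈ B1 v, ∏ z, w (b z) ≤ M := by
    intro v
    apply chernoff w (ξ v) hw (hξ v) (hsum v) η hη0 hη
    intro b hb
    simpa [B1] using hb
  have hB2 : ∀ v, ∑ b ∈ B2 v, ∏ z, w (b z) ≤ M := by
    intro v
    apply chernoff w (fun c => -ξ v c) hw (fun c => by rw [abs_neg]; exact hξ v c)
      (by simpa using hsum v) η hη0 hη
    intro b hb
    simpa [B2] using hb
  have hsub : badSet ι K G η ⊆ (Finset.univ : Finset (Fin K)).biUnion fun v => B1 v ∪ B2 v := by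
    intro b hb
    rw [mem_badSet] at hb
    obtain ⟨v, hv⟩ := hb
    rw [mem_biUnion]
    refine ⟨v, mem_univ _, ?_⟩
    rw [← hcount] at hv
    rw [mem_union]
    rcases lt_abs.1 hv with h | h
    · left
      simp only [B1, mem_filter, mem_univ, true_and]
      exact h.le
    · right
      simp only [B2, mem_filter, mem_univ, true_and, Finset.sum_neg_distrib]
      exact h.le
  have hnn : ∀ b : ι → Fin K, 0 ≤ ∏ z, w (b z) := fun b => Finset.prod_nonneg fun z _ => hw _
  calc ∑ b ∈ badSet ι K G η, ∏ z, w (b z)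
      ≤ ∑ b ∈ (Finset.univ : Finset (Fin K)).biUnion fun v => B1 v ∪ B2 v, ∏ z, w (b z) :=
        Finset.sum_le_sum_of_subset_of_nonneg hsub fun b _ _ => hnn b
    _ ≤ ∑ v : Fin K, ∑ b ∈ B1 v ∪ B2 v, ∏ z, w (b z) :=
        sum_biUnion_le _ _ _ hnn
    _ ≤ ∑ v : Fin K, (M + M) := by
        apply Finset.sum_le_sum
        intro v _
        have h1 : ∑ b ∈ B1 v ∪ B2 v, ∏ z, w (b z)
            ≤ ∑ b ∈ B1 v, ∏ z, w (b z) + ∑ b ∈ B2 v, ∏ z, w (b z) := by
          rw [← Finset.sum_union_inter]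
          have : 0 ≤ ∑ b ∈ B1 v ∩ B2 v, ∏ z, w (b z) := Finset.sum_nonneg fun b _ => hnn b
          linarith
        linarith [hB1 v, hB2 v]
    _ = 2 * K * M := by
        rw [Finset.sum_const, card_univ, Fintype.card_fin, nsmul_eq_mul]
        ring

end Pool.Agent.ClusterPoset
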