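import Pool.Agent.ClusterPoset.Beta
import Pool.Agent.ClusterPoset.Chernoff

/-!
# Concentration of the heights of the backbone
-/

set_option autoImplicit false

namespace Pool.Agent.ClusterPoset

open Finset

variable {n d p q K : ℕ}

/-- The cumulative step distribution. -/
noncomputable def GG (d p q K : ℕ) (k : ℕ) : ℝ :=
  (∑ c ∈ range k, sU d p q K c) / ∑ c ∈ range K, sU d p q K c

lemma sum_Iic_phiU (v : Fin K) :
    ∑ c ∈ Finset.Iic v, phiU d p q K c = ∑ c ∈ range ((v : ℕ) + 1), sU d p q K c := by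
  have h : range ((v : ℕ) + 1) = (Finset.Iic v).map Fin.valEmbedding := by
    rw [Fin.map_valEmbedding_Iic]
    ext x
    simp
  rw [h, Finset.sum_map]
  rfl

lemma sum_phiU : ∑ c : Fin K, phiU d p q K c = ∑ c ∈ range K, sU d p q K c := by
  rw [Finset.sum_range]
  rfl

lemma SU_pos (hK0 : 0 < K) : 0 < ∑ c ∈ range K, sU d p q K c := by
  have h := (sum_bounds d p q (le_refl K) hK0).2
  have hK : 0 < (K : ℝ) := by exact_mod_cast hK0
  rw [div_self hK.ne'] at h
  have := mul_pos hK (II_one_pos d p q)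
  linarith

lemma GG_close {k : ℕ} (hk : k ≤ K) (hK0 : 0 < K) :
    |GG d p q K k - gg d p q (k / K)| ≤ 2 / (K * II d p q 1) := by
  have hK : 0 < (K : ℝ) := by exact_mod_cast hK0
  have hI := II_one_pos d p q
  have h1 := (sum_bounds d p q hk hK0).2
  have h2 := sum_sU_le d p q hk hK0
  have h3 := (sum_bounds d p q (le_refl K) hK0).2
  have h4 := sum_sU_le d p q (le_refl K) hK0
  rw [div_self hK.ne'] at h3 h4
  have hSpos := SU_pos (d := d) (p := p) (q := q) hK0
  unfold GG gg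
  set S := ∑ c ∈ range K, sU d p q K c
  set s := ∑ c ∈ range k, sU d p q K c
  have hkK : (k : ℝ) / K ≤ 1 := by
    rw [div_le_one hK]
    exact_mod_cast hk
  have hk0 : (0 : ℝ) ≤ (k : ℝ) / K := by positivity
  set i := II d p q ((k : ℝ) / K) with hi
  set I := II d p q 1
  have hi0 : 0 ≤ i := by
    rcases hk0.lt_or_eq with h | h
    · have := II_lt d p q le_rfl h hkK
      rw [II_zero] at this
      exact this.le
    · rw [hi, ← h, II_zero]
  have hiI : i ≤ I := by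
    rcases hkK.lt_or_eq with h | h
    · exact (II_lt d p q hk0 h le_rfl).le
    · rw [hi, h]
  have e : s / S - i / I = (s * I - i * S) / (S * I) := by
    field_simp
  rw [e, abs_div, abs_of_pos (mul_pos hSpos hI), div_le_div_iff₀ (mul_pos hSpos hI)
    (mul_pos hK hI)]
  have h5 : |s * I - i * S| ≤ 2 * I := by
    rw [abs_le]
    constructor
    · nlinarith
    · nlinarith
  calc |s * I - i * S| * (K * I) ≤ 2 * I * (K * I) := by
        apply mul_le_mul_of_nonneg_right h5 (by positivity)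
    _ = 2 * (K * I * I) := by ring
    _ ≤ 2 * (S * I) := by nlinarith

/-- The good total label counts. -/
noncomputable def TT (n d p q K : ℕ) (η : ℝ) : Finset (Pt n d p q → Fin K) :=
  Finset.univ \ badSet (Pt n d p q) K (fun v => (((v : ℕ) : ℝ) + 1) / K) η

lemma TT_perm (η : ℝ) (c : Pt n d p q → Fin K) (hc : c ∈ TT n d p q K η)
    (π : Equiv.Perm (Pt n d p q)) : c ∘ π ∈ TT n d p q K η := by
  rw [TT, mem_sdiff, mem_badSet] at hc ⊢
  refine ⟨mem_univ _, ?_⟩
  rintro ⟨v, hv⟩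
  apply hc.2
  refine ⟨v, ?_⟩
  have : #{z | (c ∘ π) z ≤ v} = #{z | c z ≤ v} := by
    apply Finset.card_bij (fun z _ => π z)
    · intro z hz
      rw [mem_filter] at hz ⊢
      exact ⟨mem_univ _, hz.2⟩
    · intro z _ z' _ h
      exact π.injective h
    · intro z hz
      rw [mem_filter] at hz
      refine ⟨π.symm z, ?_, by simp⟩
      rw [mem_filter]
      refine ⟨mem_univ _, ?_⟩
      rw [Function.comp_apply, Equiv.apply_symm_apply]
      exact hz.2
  rw [← this]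
  exact hv

lemma card_TT_ge (hK0 : 0 < K) (η : ℝ) (hη0 : 0 ≤ η) (hη : η ≤ 2)
    (h : 2 * K * Real.exp (-(Fintype.card (Pt n d p q) * η ^ 2 / 4)) ≤ 1 / 2) :
    (K : ℝ) ^ Fintype.card (Pt n d p q) ≤ 2 * #(TT n d p q K η) := by
  have hK : 0 < (K : ℝ) := by exact_mod_cast hK0
  have h1 := bad_weight (ι := Pt n d p q) (K := K) (fun _ => 1) (fun _ => zero_le_one)
    (by simp [hK]) (fun v => (((v : ℕ) : ℝ) + 1) / K) (fun v => by simp [Fin.card_Iic]) η hη0 hη
  simp only [Finset.prod_const_one, Finset.sum_const, nsmul_eq_mul, mul_one, card_univ,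
    Fintype.card_fin] at h1
  have h2 : (#(TT n d p q K η) : ℝ) = (K : ℝ) ^ Fintype.card (Pt n d p q)
      - #(badSet (Pt n d p q) K (fun v => (((v : ℕ) : ℝ) + 1) / K) η) := by
    rw [TT, Finset.card_sdiff_of_subset (Finset.subset_univ _), Nat.cast_sub
      (Finset.card_le_card (Finset.subset_univ _)), card_univ, Fintype.card_fun, Fintype.card_fin]
    push_cast
    rfl
  have h3 : 0 < (K : ℝ) ^ Fintype.card (Pt n d p q) := by positivity
  rw [h2]
  have h4 : 2 * (K : ℝ) * ((K : ℝ) ^ Fintype.card (Pt n d p q)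
      * Real.exp (-(Fintype.card (Pt n d p q) * η ^ 2 / 4)))
      = (K : ℝ) ^ Fintype.card (Pt n d p q)
        * (2 * K * Real.exp (-(Fintype.card (Pt n d p q) * η ^ 2 / 4))) := by ring
  rw [h4] at h1
  have h5 := mul_le_mul_of_nonneg_left h h3.le
  linarith

/-- `#{x | c x < v}` from the cumulative counts. -/
lemma lt_count {ι : Type} [Fintype ι] [DecidableEq ι] (G : ℕ → ℝ) (hG0 : G 0 = 0) (η : ℝ)
    (hη : 0 ≤ η) (c : ι → Fin K)
    (hc : ¬ ∃ v : Fin K, η * Fintype.card ι < |(#{z : ι | c z ≤ v} : ℝ)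
      - G ((v : ℕ) + 1) * Fintype.card ι|) (v : Fin K) :
    |(#{z : ι | c z < v} : ℝ) - G v * Fintype.card ι| ≤ η * Fintype.card ι := by
  rcases Nat.eq_zero_or_pos (v : ℕ) with h | h
  · have : #{z : ι | c z < v} = 0 := by
      rw [Finset.card_eq_zero, Finset.filter_eq_empty_iff]
      intro z _ hz
      have : (c z : ℕ) < v := hz
      omega
    rw [this, h, hG0]
    simp only [Nat.cast_zero, zero_mul, sub_zero, abs_zero]
    positivity
  · push Not at hc
    have hv := hc ⟨(v : ℕ) - 1, by omega⟩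
    simp only at hv
    have e1 : (v : ℕ) - 1 + 1 = v := by omega
    rw [e1] at hv
    have : #{z : ι | c z < v} = #{z : ι | c z ≤ ⟨(v : ℕ) - 1, by omega⟩} := by
      congr 1
      ext z
      simp only [mem_filter, mem_univ, true_and, Fin.lt_def, Fin.le_def]
      omega
    rw [this]
    exact hv

/-- The real-number core: a backbone element with typical block has typical height. -/
lemma close_of_typical (ε γ η I : ℝ)
    (hgap : ∀ x y : ℝ, 0 ≤ x → y ≤ 1 → x + ε / 2 ≤ y → gg d p q x + γ ≤ gg d p q y)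
    (hηγ : 2 * η + 2 / (K * I) < γ) (hηε : η + 1 / K ≤ ε / 2)
    (hK0 : 0 < K) (hGG : ∀ k ≤ K, |GG d p q K k - gg d p q (k / K)| ≤ 2 / (K * I))
    (v : ℕ) (hv : v < K) (h M j N a1 a2 b1 b2 t : ℝ) (hM : 0 < M) (hN : 0 < N)
    (ha1 : |a1 - v / K * M| ≤ η * M) (ha2 : |a2 - (v + 1 : ℕ) / K * M| ≤ η * M)
    (h1 : a1 ≤ h) (h2 : h ≤ a2)
    (hb1 : |b1 - GG d p q K v * N| ≤ η * N) (hb2 : |b2 - GG d p q K (v + 1) * N| ≤ η * N)
    (h3 : b1 ≤ j) (h4 : j ≤ b2)
    (ht0 : 0 ≤ t) (ht1 : t ≤ 1) (hgt : |gg d p q t - j / N| ≤ η) :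
    |h - M * t| ≤ ε * M := by
  have hK : 0 < (K : ℝ) := by exact_mod_cast hK0
  have hvK : (v : ℝ) + 1 ≤ K := by exact_mod_cast hv
  have hv0 : (0 : ℝ) ≤ v := Nat.cast_nonneg v
  rw [abs_le] at ha1 ha2 hb1 hb2 hgt
  have hg1 := abs_le.1 (hGG v hv.le)
  have hg2 := abs_le.1 (hGG (v + 1) hv)
  -- bounds for `j / N`
  have j1 : GG d p q K v - η ≤ j / N := by
    rw [le_div_iff₀ hN]
    nlinarith [hb1.1]
  have j2 : j / N ≤ GG d p q K (v + 1) + η := by
    rw [div_le_iff₀ hN]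
    nlinarith [hb2.2]
  -- bounds for `h / M`
  have k1 : (v / K - η) * M ≤ h := by nlinarith [ha1.1]
  have k2 : h ≤ ((v + 1 : ℕ) / K + η) * M := by nlinarith [ha2.2]
  have eK : ((v + 1 : ℕ) : ℝ) / K = v / K + 1 / K := by
    push_cast
    ring
  have hvK1 : (v : ℝ) / K ≤ 1 := by
    rw [div_le_one hK]
    linarith
  have hvK2 : ((v + 1 : ℕ) : ℝ) / K ≤ 1 := by
    rw [div_le_one hK]
    push_cast
    linarith
  rw [abs_le]
  constructor
  · by_contra hlt
    push Not at hlt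
    have h5 : (v / K - η) * M < (t - ε) * M := by linarith
    have h6 : (v : ℝ) / K - η < t - ε := lt_of_mul_lt_mul_right h5 hM.le
    have h7 : ((v + 1 : ℕ) : ℝ) / K + ε / 2 ≤ t := by
      rw [eK]
      linarith
    have h8 := hgap _ t (by positivity) ht1 h7
    linarith [hg2.2, hgt.1]
  · by_contra hlt
    push Not at hlt
    have h5 : (t + ε) * M < ((v + 1 : ℕ) / K + η) * M := by linarith
    have h6 : t + ε < ((v + 1 : ℕ) : ℝ) / K + η := lt_of_mul_lt_mul_right h5 hM.le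
    have h7 : t + ε / 2 ≤ (v : ℝ) / K := by
      rw [eK] at h6
      linarith
    have h8 := hgap t _ ht0 hvK1 h7
    linarith [hg1.1, hgt.2]

/-- The bad linear extensions. -/
noncomputable def Bad (n d p q : ℕ) (f : ℝ → ℝ) (ε : ℝ) : Finset (Ord (Pt n d p q)) := by
  classical
  exact {σ | IsExt σ ∧ ∃ i : ℕ, ∃ z : Fin (n * d + 1), i ≤ n ∧ (z : ℕ) = i * d ∧
    ε * Fintype.card (Pt n d p q) <
      |((σ (Z z) : ℕ) : ℝ) - Fintype.card (Pt n d p q) * f (((i : ℝ) + 1) / (n + 2))|}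

/-- All linear extensions. -/
noncomputable def Ext (n d p q : ℕ) : Finset (Ord (Pt n d p q)) := by
  classical
  exact {σ | IsExt σ}

lemma mem_Ext (σ : Ord (Pt n d p q)) : σ ∈ Ext n d p q ↔ IsExt σ := by
  classical
  simp [Ext]

lemma mem_Bad (f : ℝ → ℝ) (ε : ℝ) (σ : Ord (Pt n d p q)) :
    σ ∈ Bad n d p q f ε ↔ IsExt σ ∧ ∃ i : ℕ, ∃ z : Fin (n * d + 1), i ≤ n ∧ (z : ℕ) = i * d ∧
    ε * Fintype.card (Pt n d p q) <
      |((σ (Z z) : ℕ) : ℝ) - Fintype.card (Pt n d p q) * f (((i : ℝ) + 1) / (n + 2))| := by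
  classical
  simp [Bad]

lemma frac_close (hd : 0 < d) (i : ℕ) (hi : i ≤ n) :
    |((i : ℝ) + 1) / (n + 2) - ((i * d : ℕ) : ℝ) / ((n * d + 1 : ℕ) : ℝ)| ≤ 2 / (n + 2) := by
  have hd' : (1 : ℝ) ≤ d := by exact_mod_cast hd
  have hi' : (i : ℝ) ≤ n := by exact_mod_cast hi
  have hi0 : (0 : ℝ) ≤ i := Nat.cast_nonneg i
  have hn0 : (0 : ℝ) ≤ n := Nat.cast_nonneg n
  push_cast
  have h1 : (0 : ℝ) < n + 2 := by positivity
  have h2 : (0 : ℝ) < n * d + 1 := by positivity
  have e : ((i : ℝ) + 1) / (n + 2) - (i : ℝ) * d / ((n : ℝ) * d + 1)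
      = (n * d + i + 1 - 2 * (i * d)) / ((n + 2) * (n * d + 1)) := by
    field_simp
    ring
  rw [e, abs_div, abs_of_pos (mul_pos h1 h2), div_le_div_iff₀ (mul_pos h1 h2) h1]
  have h3 : |(n : ℝ) * d + i + 1 - 2 * (i * d)| ≤ 2 * (n * d + 1) := by
    have hid : (i : ℝ) * d ≤ n * d := mul_le_mul_of_nonneg_right hi' (by positivity)
    have hid2 : (i : ℝ) ≤ i * d := le_mul_of_one_le_right hi0 hd'
    rw [abs_le]
    constructor
    · nlinarith
    · nlinarith
  calc |(n : ℝ) * d + i + 1 - 2 * (i * d)| * (n + 2) ≤ 2 * (n * d + 1) * (n + 2) :=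
        mul_le_mul_of_nonneg_right h3 h1.le
    _ = 2 * ((n + 2) * (n * d + 1)) := by ring

end Pool.Agent.ClusterPoset
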