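import Pool.Agent.ClusterPoset.Core

/-!
# Concentration: the final estimate
-/

set_option autoImplicit false

namespace Pool.Agent.ClusterPoset

open Finset

variable {n d p q K : ℕ}

/-- Weak labellings with atypical backbone. -/
noncomputable def WW (n d p q K : ℕ) (η : ℝ) : Finset (Pt n d p q → Fin K) := by
  classical
  exact {c | (fun z => c (Z z)) ∈ badSet (Fin (n * d + 1)) K
    (fun v => GG d p q K ((v : ℕ) + 1)) η ∧ Weak c}

/-- Strict labellings with backbone labels in the interior. -/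
noncomputable def WS (n d p q K : ℕ) : Finset (Pt n d p q → Fin K) := by
  classical
  exact {c | (fun z => c (Z z)) ∈ (Fintype.piFinset fun _ : Fin (n * d + 1) =>
    (Finset.univ : Finset (Fin K)).filter fun c : Fin K => 1 ≤ (c : ℕ) ∧ (c : ℕ) + 2 ≤ K) ∧ Strict c}

/-- The sum of the lower step function over interior labels. -/
noncomputable def SLo (d p q K : ℕ) : ℝ :=
  ∑ c : Fin K, if 1 ≤ (c : ℕ) ∧ (c : ℕ) + 2 ≤ K then sL d p q K c else 0

lemma card_WW_le (hd : 0 < d) (hK0 : 0 < K) (η : ℝ) (hη0 : 0 ≤ η) (hη : η ≤ 2) :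
    (#(WW n d p q K η) : ℝ) ≤ (K : ℝ) ^ (n * p + n * q) * (K : ℝ) ^ ((p : ℝ) / d + (q : ℝ) / d)
      * (2 * K * ((∑ c ∈ range K, sU d p q K c) ^ (n * d + 1)
        * Real.exp (-(((n * d + 1 : ℕ) : ℝ) * η ^ 2 / 4)))) := by
  classical
  have hK : 0 < (K : ℝ) := by exact_mod_cast hK0
  rw [card_weak (badSet (Fin (n * d + 1)) K (fun v => GG d p q K ((v : ℕ) + 1)) η)
    (WW n d p q K η) (by intro c; simp [WW])]
  rw [Nat.cast_sum]
  have h1 := bad_weight (ι := Fin (n * d + 1)) (K := K) (phiU d p q K)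
    (fun c => (phiU_pos c).le) (by rw [sum_phiU]; exact SU_pos hK0)
    (fun v => GG d p q K ((v : ℕ) + 1))
    (fun v => by rw [sum_Iic_phiU, sum_phiU]; rfl) η hη0 hη
  rw [sum_phiU, Fintype.card_fin] at h1
  calc ∑ b ∈ badSet (Fin (n * d + 1)) K (fun v => GG d p q K ((v : ℕ) + 1)) η,
        (((∏ i : Fin n, ((srt b (zL i) : ℕ) + 1) ^ p)
          * ∏ i : Fin n, (K - (srt b (zU i) : ℕ)) ^ q : ℕ) : ℝ)
      ≤ ∑ b ∈ badSet (Fin (n * d + 1)) K (fun v => GG d p q K ((v : ℕ) + 1)) η,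
        (K : ℝ) ^ (n * p + n * q) * (K : ℝ) ^ ((p : ℝ) / d + (q : ℝ) / d)
        * ∏ z, phiU d p q K (b z) := Finset.sum_le_sum fun b _ => weak_weight hd b
    _ = (K : ℝ) ^ (n * p + n * q) * (K : ℝ) ^ ((p : ℝ) / d + (q : ℝ) / d)
        * ∑ b ∈ badSet (Fin (n * d + 1)) K (fun v => GG d p q K ((v : ℕ) + 1)) η,
          ∏ z, phiU d p q K (b z) := by rw [Finset.mul_sum]
    _ ≤ _ := by
        apply mul_le_mul_of_nonneg_left h1
        have := Real.rpow_nonneg hK.le ((p : ℝ) / d + (q : ℝ) / d)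
        positivity

lemma card_WS_ge (hd : 0 < d) :
    (K : ℝ) ^ (n * p + n * q) * ((1 / (K : ℝ)) ^ p * (1 / (K : ℝ)) ^ q)
      * (SLo d p q K) ^ (n * d + 1) ≤ #(WS n d p q K) := by
  classical
  rw [card_strict (Fintype.piFinset fun _ : Fin (n * d + 1) =>
    (Finset.univ : Finset (Fin K)).filter fun c : Fin K => 1 ≤ (c : ℕ) ∧ (c : ℕ) + 2 ≤ K)
    (WS n d p q K) (by intro c; simp [WS])]
  rw [Nat.cast_sum]
  have h1 : (SLo d p q K) ^ (n * d + 1) = ∑ b ∈ (Fintype.piFinset fun _ : Fin (n * d + 1) =>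
      (Finset.univ : Finset (Fin K)).filter fun c : Fin K => 1 ≤ (c : ℕ) ∧ (c : ℕ) + 2 ≤ K),
      ∏ z, phiL d p q K (b z) := by
    rw [← Finset.prod_univ_sum (fun _ : Fin (n * d + 1) =>
      (Finset.univ : Finset (Fin K)).filter fun c : Fin K => 1 ≤ (c : ℕ) ∧ (c : ℕ) + 2 ≤ K)
      (fun _ c => phiL d p q K c), Finset.prod_const, card_univ, Fintype.card_fin]
    congr 1
    rw [SLo, Finset.sum_filter]
    rfl
  rw [h1, Finset.mul_sum]
  apply Finset.sum_le_sum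
  intro b hb
  apply strict_weight hd b
  intro z
  have := (Fintype.mem_piFinset.1 hb) z
  simpa using this

lemma bad_count (hd : 0 < d) (f : ℝ → ℝ)
    (hf : ∀ y : ℝ, 0 ≤ y → y ≤ 1 → 0 ≤ f y ∧ f y ≤ 1 ∧ gg d p q (f y) = y)
    (ε γ η : ℝ) (hη0 : 0 < η)
    (hgap : ∀ x y : ℝ, 0 ≤ x → y ≤ 1 → x + ε / 2 ≤ y → gg d p q x + γ ≤ gg d p q y)
    (hηγ : 2 * η + 2 / (K * II d p q 1) < γ) (hηε : η + 1 / K ≤ ε / 2)
    (hK0 : 0 < K) (hn : 2 / ((n : ℝ) + 2) ≤ η) :
    #(Bad n d p q f ε) * numG n d p q * #(TT n d p q K η)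
      ≤ Fintype.card (Ord (Pt n d p q)) * #(WW n d p q K η) := by
  classical
  apply upper_count (Bad n d p q f ε) (fun σ hσ => ((mem_Bad f ε σ).1 hσ).1)
    (TT n d p q K η) (fun c hc π => TT_perm η c hc π)
  intro σ hσ c hc τ π hπ hlex
  rw [mem_Bad] at hσ
  obtain ⟨hext, i, z, hin, hz, hbad⟩ := hσ
  rw [WW]
  simp only [mem_filter, mem_univ, true_and]
  refine ⟨?_, weak_of_mem c τ σ hext π hπ hlex⟩
  by_contra hgood
  rw [mem_badSet] at hgood
  rw [TT, mem_sdiff, mem_badSet] at hc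
  have hc := hc.2
  obtain ⟨v, h1, h2, h3, h4⟩ := height_of_mem c τ σ hext π hπ hlex z
  have hK : 0 < (K : ℝ) := by exact_mod_cast hK0
  have hy0 : (0 : ℝ) ≤ ((i : ℝ) + 1) / (n + 2) := by positivity
  have hy1 : ((i : ℝ) + 1) / (n + 2) ≤ 1 := by
    rw [div_le_one (by positivity)]
    have : (i : ℝ) ≤ n := by exact_mod_cast hin
    linarith
  obtain ⟨ft0, ft1, fg⟩ := hf _ hy0 hy1
  have hc' : ¬ ∃ v : Fin K, η * Fintype.card (Pt n d p q) <
      |(#{z : Pt n d p q | c z ≤ v} : ℝ)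
        - (fun k : ℕ => (k : ℝ) / K) ((v : ℕ) + 1) * Fintype.card (Pt n d p q)| := by
    simpa using hc
  have hclt := lt_count (fun k : ℕ => (k : ℝ) / K) (by simp) η hη0.le c hc' v
  have hglt := lt_count (GG d p q K) (by simp [GG]) η hη0.le (fun z => c (Z z)) hgood v
  have hcle : |(#{x : Pt n d p q | c x ≤ v} : ℝ)
      - (((v : ℕ) + 1 : ℕ) : ℝ) / K * Fintype.card (Pt n d p q)|
        ≤ η * Fintype.card (Pt n d p q) := by
    push Not at hc'
    exact hc' v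
  have hgle : |(#{z : Fin (n * d + 1) | c (Z z) ≤ v} : ℝ)
      - GG d p q K ((v : ℕ) + 1) * Fintype.card (Fin (n * d + 1))|
        ≤ η * Fintype.card (Fin (n * d + 1)) := by
    push Not at hgood
    exact hgood v
  have hMpos : (0 : ℝ) < Fintype.card (Pt n d p q) := by
    have : 0 < Fintype.card (Pt n d p q) := Fintype.card_pos_iff.2 ⟨Z 0⟩
    exact_mod_cast this
  have hNpos : (0 : ℝ) < Fintype.card (Fin (n * d + 1)) := by
    rw [Fintype.card_fin]
    positivity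
  have hfrac := frac_close (n := n) hd i hin
  have hclose := close_of_typical (d := d) (p := p) (q := q) ε γ η (II d p q 1) hgap hηγ hηε hK0
    (fun k hk => GG_close hk hK0) v v.2 ((σ (Z z) : ℕ) : ℝ) (Fintype.card (Pt n d p q))
    ((i * d : ℕ) : ℝ) (Fintype.card (Fin (n * d + 1))) _ _ _ _
    (f (((i : ℝ) + 1) / (n + 2))) hMpos hNpos hclt hcle (by exact_mod_cast h1)
    (by exact_mod_cast h2) hglt hgle (by rw [← hz]; exact_mod_cast h3)
    (by rw [← hz]; exact_mod_cast h4.le) ft0 ft1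
    (by
      rw [fg, Fintype.card_fin]
      exact hfrac.trans hn)
  linarith

lemma final_arith {B G T O W V E KM δ : ℝ} (hδ : 0 ≤ δ) (hG : 0 < G) (hO : 0 < O) (hT0 : 0 < T)
    (hE : 0 ≤ E) (hup : B * G * T ≤ O * W) (hlow : O * V ≤ E * G * KM) (hcomp : W ≤ δ / 2 * V)
    (hT : KM ≤ 2 * T) : B ≤ δ * E := by
  have h1 : B * G * T ≤ δ * E * (G * T) := by
    calc B * G * T ≤ O * W := hup
      _ ≤ O * (δ / 2 * V) := mul_le_mul_of_nonneg_left hcomp hO.le
      _ = δ / 2 * (O * V) := by ring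
      _ ≤ δ / 2 * (E * G * KM) := mul_le_mul_of_nonneg_left hlow (by positivity)
      _ ≤ δ / 2 * (E * G * (2 * T)) := by
          apply mul_le_mul_of_nonneg_left _ (by positivity)
          exact mul_le_mul_of_nonneg_left hT (by positivity)
      _ = δ * E * (G * T) := by ring
  have h2 : B * (G * T) ≤ δ * E * (G * T) := by linarith
  exact le_of_mul_le_mul_right h2 (by positivity)

theorem bad_small (hd : 0 < d) (p q : ℕ) (f : ℝ → ℝ)
    (hf : ∀ y : ℝ, 0 ≤ y → y ≤ 1 → 0 ≤ f y ∧ f y ≤ 1 ∧ gg d p q (f y) = y)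
    (ε : ℝ) (hε : 0 < ε) (δ : ℝ) (hδ : 0 < δ) :
    ∃ n0 : ℕ, ∀ n ≥ n0, 0 < #(Ext n d p q) ∧
      (#(Bad n d p q f ε) : ℝ) ≤ δ * #(Ext n d p q) := by
  classical
  obtain ⟨γ, hγ, hgap⟩ := gg_gap d p q (ε / 2) (by positivity)
  have hI := II_one_pos d p q
  set I := II d p q 1 with hIdef
  obtain ⟨η, hη0, hη1, hηγ, hηε⟩ : ∃ η : ℝ, 0 < η ∧ η ≤ 1 ∧ η ≤ γ / 8 ∧ η ≤ ε / 8 :=
    ⟨min 1 (min (γ / 8) (ε / 8)), by positivity, min_le_left _ _,
      (min_le_right _ _).trans (min_le_left _ _), (min_le_right _ _).trans (min_le_right _ _)⟩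
  obtain ⟨K, hKbig⟩ := exists_nat_gt (max (8 / ε) (max (16 / (γ * I)) ((4 + 48 / η ^ 2) / I)))
  have hK1 : 8 / ε < K := lt_of_le_of_lt (le_max_left _ _) hKbig
  have hK2 : 16 / (γ * I) < K :=
    lt_of_le_of_lt ((le_max_left _ _).trans (le_max_right _ _)) hKbig
  have hK3 : (4 + 48 / η ^ 2) / I < K :=
    lt_of_le_of_lt ((le_max_right _ _).trans (le_max_right _ _)) hKbig
  have hK : 0 < (K : ℝ) := lt_trans (by positivity) hK1
  have hK0 : 0 < K := by exact_mod_cast hK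
  have c1 : 1 / (K : ℝ) ≤ ε / 8 := by
    rw [div_le_div_iff₀ hK (by norm_num)]
    rw [div_lt_iff₀ hε] at hK1
    linarith
  have c2 : 2 / (K * I) ≤ γ / 8 := by
    rw [div_le_div_iff₀ (by positivity) (by norm_num)]
    rw [div_lt_iff₀ (by positivity)] at hK2
    nlinarith
  have c3 : 4 + 48 / η ^ 2 < K * I := by
    rw [div_lt_iff₀ hI] at hK3
    exact hK3
  have h48 : 0 < 48 / η ^ 2 := by positivity
  -- the sums
  set SU := ∑ c ∈ range K, sU d p q K c with hSU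
  have hSUpos : 0 < SU := SU_pos hK0
  have hSUle : SU ≤ K * I + 2 := by
    have := sum_sU_le d p q (le_refl K) hK0
    rw [div_self hK.ne'] at this
    exact this
  have hSLge : K * I - 4 ≤ SLo d p q K := sum_sL_ge d p q hK0
  have hSLpos : 0 < SLo d p q K := by linarith
  have hratio : SU ≤ SLo d p q K * Real.exp (η ^ 2 / 8) := by
    have h1 : 1 + η ^ 2 / 8 ≤ Real.exp (η ^ 2 / 8) := by
      linarith [Real.add_one_le_exp (η ^ 2 / 8)]
    have h2 : 48 / η ^ 2 * (η ^ 2 / 8) = 6 := by field_simp; norm_num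
    have h3 : 0 < η ^ 2 / 8 := by positivity
    calc SU ≤ K * I + 2 := hSUle
      _ ≤ (K * I - 4) * (1 + η ^ 2 / 8) := by nlinarith
      _ ≤ SLo d p q K * Real.exp (η ^ 2 / 8) := by
          apply mul_le_mul hSLge h1 (by positivity) hSLpos.le
  -- the constant
  set C : ℝ := (K : ℝ) ^ ((p : ℝ) / d + (q : ℝ) / d) * (2 * K) * ((K : ℝ) ^ p * (K : ℝ) ^ q)
    with hC
  have hC0 : 0 < C := by
    have := Real.rpow_pos_of_pos hK ((p : ℝ) / d + (q : ℝ) / d)
    positivity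
  have hexp0 : Filter.Tendsto (fun n : ℕ => Real.exp (-((n : ℝ) * (η ^ 2 / 8)))) Filter.atTop
      (nhds 0) := by
    apply Real.tendsto_exp_neg_atTop_nhds_zero.comp
    exact Filter.Tendsto.atTop_mul_const (by positivity) tendsto_natCast_atTop_atTop
  have ev1 : ∀ᶠ n : ℕ in Filter.atTop, Real.exp (-((n : ℝ) * (η ^ 2 / 8))) < δ / (2 * C) :=
    hexp0.eventually (gt_mem_nhds (by positivity))
  have ev2 : ∀ᶠ n : ℕ in Filter.atTop, Real.exp (-((n : ℝ) * (η ^ 2 / 8))) < 1 / (4 * K) :=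
    hexp0.eventually (gt_mem_nhds (by positivity))
  have ev3 : ∀ᶠ n : ℕ in Filter.atTop, 2 / η < (n : ℝ) :=
    tendsto_natCast_atTop_atTop.eventually_gt_atTop (2 / η)
  obtain ⟨n0, hn0⟩ := Filter.eventually_atTop.1 (ev1.and (ev2.and ev3))
  refine ⟨n0, fun n hn => ?_⟩
  obtain ⟨e1, e2, e3⟩ := hn0 n hn
  have hn' : 2 / ((n : ℝ) + 2) ≤ η := by
    rw [div_le_iff₀ (by positivity)]
    rw [div_lt_iff₀ hη0] at e3
    nlinarith
  have hnN : (n : ℝ) ≤ ((n * d + 1 : ℕ) : ℝ) := by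
    have : n ≤ n * d + 1 := by nlinarith
    exact_mod_cast this
  have hnM : (n : ℝ) ≤ (Fintype.card (Pt n d p q) : ℝ) := by
    have : n ≤ Fintype.card (Pt n d p q) := by
      simp only [Fintype.card_sum, Fintype.card_fin, Fintype.card_prod]
      nlinarith
    exact_mod_cast this
  -- total labels
  have hT : (K : ℝ) ^ Fintype.card (Pt n d p q) ≤ 2 * #(TT n d p q K η) := by
    apply card_TT_ge hK0 η hη0.le (by linarith)
    have h1 : Real.exp (-(Fintype.card (Pt n d p q) * η ^ 2 / 4))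
        ≤ Real.exp (-((n : ℝ) * (η ^ 2 / 8))) := by
      apply Real.exp_le_exp.2
      have : 0 < η ^ 2 := by positivity
      nlinarith
    have h2 : 2 * (K : ℝ) * (1 / (4 * K)) = 1 / 2 := by field_simp; norm_num
    calc 2 * (K : ℝ) * Real.exp (-(Fintype.card (Pt n d p q) * η ^ 2 / 4))
        ≤ 2 * K * (1 / (4 * K)) := by
          apply mul_le_mul_of_nonneg_left (h1.trans e2.le) (by positivity)
      _ = 1 / 2 := h2
  have hup := bad_count (n := n) (K := K) hd f hf ε γ η hη0 hgap (by linarith) (by linarith) hK0 hn'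
  have hlow := lower_count (n := n) (d := d) (p := p) (q := q) (K := K) (Ext n d p q) mem_Ext
    (WS n d p q K) (by
      intro c hc
      simp only [WS, mem_filter] at hc
      exact hc.2.2)
  have hWW := card_WW_le (n := n) (d := d) (p := p) (q := q) hd hK0 η hη0.le (by linarith)
  have hWS := card_WS_ge (n := n) (d := d) (p := p) (q := q) (K := K) hd
  -- compare the two label counts
  have hcomp : (#(WW n d p q K η) : ℝ) ≤ δ / 2 * #(WS n d p q K) := by
    have hN4 : SU ^ (n * d + 1) * Real.exp (-(((n * d + 1 : ℕ) : ℝ) * η ^ 2 / 4))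
        ≤ SLo d p q K ^ (n * d + 1) * Real.exp (-((n : ℝ) * (η ^ 2 / 8))) := by
      have h1 : SU ^ (n * d + 1) ≤ (SLo d p q K * Real.exp (η ^ 2 / 8)) ^ (n * d + 1) :=
        pow_le_pow_left₀ hSUpos.le hratio _
      have h2 : (SLo d p q K * Real.exp (η ^ 2 / 8)) ^ (n * d + 1)
          * Real.exp (-(((n * d + 1 : ℕ) : ℝ) * η ^ 2 / 4))
          = SLo d p q K ^ (n * d + 1) * Real.exp (-(((n * d + 1 : ℕ) : ℝ) * (η ^ 2 / 8))) := by
        rw [mul_pow, ← Real.exp_nat_mul, mul_assoc, ← Real.exp_add]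
        congr 2
        ring
      have h3 : Real.exp (-(((n * d + 1 : ℕ) : ℝ) * (η ^ 2 / 8)))
          ≤ Real.exp (-((n : ℝ) * (η ^ 2 / 8))) := by
        apply Real.exp_le_exp.2
        have : 0 < η ^ 2 := by positivity
        nlinarith
      calc SU ^ (n * d + 1) * Real.exp (-(((n * d + 1 : ℕ) : ℝ) * η ^ 2 / 4))
          ≤ (SLo d p q K * Real.exp (η ^ 2 / 8)) ^ (n * d + 1)
            * Real.exp (-(((n * d + 1 : ℕ) : ℝ) * η ^ 2 / 4)) :=
            mul_le_mul_of_nonneg_right h1 (Real.exp_nonneg _)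
        _ = _ := h2
        _ ≤ _ := mul_le_mul_of_nonneg_left h3 (pow_nonneg hSLpos.le _)
    have hA : 0 ≤ (K : ℝ) ^ (n * p + n * q) * (K : ℝ) ^ ((p : ℝ) / d + (q : ℝ) / d)
        * (2 * K) := by
      have := Real.rpow_pos_of_pos hK ((p : ℝ) / d + (q : ℝ) / d)
      positivity
    have hB : (K : ℝ) ^ p * (K : ℝ) ^ q * ((1 / (K : ℝ)) ^ p * (1 / (K : ℝ)) ^ q) = 1 := by
      have h1 : (K : ℝ) ^ p * (1 / (K : ℝ)) ^ p = 1 := by
        rw [← mul_pow, mul_one_div_cancel hK.ne', one_pow]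
      have h2 : (K : ℝ) ^ q * (1 / (K : ℝ)) ^ q = 1 := by
        rw [← mul_pow, mul_one_div_cancel hK.ne', one_pow]
      calc (K : ℝ) ^ p * (K : ℝ) ^ q * ((1 / (K : ℝ)) ^ p * (1 / (K : ℝ)) ^ q)
          = ((K : ℝ) ^ p * (1 / (K : ℝ)) ^ p) * ((K : ℝ) ^ q * (1 / (K : ℝ)) ^ q) := by ring
        _ = 1 := by rw [h1, h2, one_mul]
    set X := Real.exp (-((n : ℝ) * (η ^ 2 / 8))) with hX
    have hX0 : 0 ≤ X := Real.exp_nonneg _
    calc (#(WW n d p q K η) : ℝ)
        ≤ (K : ℝ) ^ (n * p + n * q) * (K : ℝ) ^ ((p : ℝ) / d + (q : ℝ) / d)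
          * (2 * K * (SU ^ (n * d + 1)
            * Real.exp (-(((n * d + 1 : ℕ) : ℝ) * η ^ 2 / 4)))) := hWW
      _ = (K : ℝ) ^ (n * p + n * q) * (K : ℝ) ^ ((p : ℝ) / d + (q : ℝ) / d)
          * (2 * K) * (SU ^ (n * d + 1)
            * Real.exp (-(((n * d + 1 : ℕ) : ℝ) * η ^ 2 / 4))) := by ring
      _ ≤ (K : ℝ) ^ (n * p + n * q) * (K : ℝ) ^ ((p : ℝ) / d + (q : ℝ) / d)
          * (2 * K) * (SLo d p q K ^ (n * d + 1) * X) := mul_le_mul_of_nonneg_left hN4 hA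
      _ = (K : ℝ) ^ (n * p + n * q) * (K : ℝ) ^ ((p : ℝ) / d + (q : ℝ) / d)
          * (2 * K) * (SLo d p q K ^ (n * d + 1) * X)
          * ((K : ℝ) ^ p * (K : ℝ) ^ q * ((1 / (K : ℝ)) ^ p * (1 / (K : ℝ)) ^ q)) := by
          rw [hB, mul_one]
      _ = C * X * ((K : ℝ) ^ (n * p + n * q) * ((1 / (K : ℝ)) ^ p * (1 / (K : ℝ)) ^ q)
          * (SLo d p q K) ^ (n * d + 1)) := by rw [hC]; ring
      _ ≤ C * X * #(WS n d p q K) := mul_le_mul_of_nonneg_left hWS (by positivity)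
      _ ≤ δ / 2 * #(WS n d p q K) := by
          apply mul_le_mul_of_nonneg_right _ (Nat.cast_nonneg _)
          have : C * (δ / (2 * C)) = δ / 2 := by field_simp
          rw [← this]
          exact mul_le_mul_of_nonneg_left e1.le hC0.le
  have hWSpos : (0 : ℝ) < #(WS n d p q K) := by
    refine lt_of_lt_of_le ?_ hWS
    positivity
  have hG : (0 : ℝ) < numG n d p q := by exact_mod_cast numG_pos
  have hO : (0 : ℝ) < Fintype.card (Ord (Pt n d p q)) := by
    have : 0 < Fintype.card (Ord (Pt n d p q)) := Fintype.card_pos_iff.2 ⟨Fintype.equivFin _⟩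
    exact_mod_cast this
  have hup' : (#(Bad n d p q f ε) : ℝ) * numG n d p q * #(TT n d p q K η)
      ≤ Fintype.card (Ord (Pt n d p q)) * #(WW n d p q K η) := by exact_mod_cast hup
  have hlow' : (Fintype.card (Ord (Pt n d p q)) : ℝ) * #(WS n d p q K)
      ≤ #(Ext n d p q) * numG n d p q * (K : ℝ) ^ (Fintype.card (Pt n d p q)) := by
    exact_mod_cast hlow
  have hKMpos : 0 < (K : ℝ) ^ Fintype.card (Pt n d p q) := by positivity
  constructor
  · by_contra h0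
    have h0' : #(Ext n d p q) = 0 := by omega
    rw [h0', Nat.cast_zero, zero_mul, zero_mul] at hlow'
    exact absurd (mul_pos hO hWSpos) (not_lt.2 hlow')
  exact final_arith hδ.le hG hO (by linarith) (Nat.cast_nonneg _) hup' hlow' hcomp hT

end Pool.Agent.ClusterPoset
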