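import Pool.Agent.ClusterPoset.Ord

/-!
# The two counting inequalities
-/

set_option autoImplicit false

namespace Pool.Agent.ClusterPoset

open Finset

/-- Elements: the backbone, the lower chains, the upper chains. -/
abbrev Pt (n d p q : ℕ) : Type := Fin (n * d + 1) ⊕ ((Fin n × Fin p) ⊕ (Fin n × Fin q))

variable {n d p q K : ℕ}

/-- backbone element -/
def Z (z : Fin (n * d + 1)) : Pt n d p q := Sum.inl z
/-- lower chain element -/
def L (i : Fin n) (l : Fin p) : Pt n d p q := Sum.inr (Sum.inl (i, l))
/-- upper chain element -/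
def U (i : Fin n) (u : Fin q) : Pt n d p q := Sum.inr (Sum.inr (i, u))

/-- The chain of an element. -/
def cls : Pt n d p q → Unit ⊕ (Fin n ⊕ Fin n)
  | Sum.inl _ => Sum.inl ()
  | Sum.inr (Sum.inl x) => Sum.inr (Sum.inl x.1)
  | Sum.inr (Sum.inr x) => Sum.inr (Sum.inr x.1)

/-- The place of an element in its chain. -/
def pos : Pt n d p q → ℕ
  | Sum.inl z => z
  | Sum.inr (Sum.inl x) => x.2
  | Sum.inr (Sum.inr x) => x.2

lemma cls_pos (x y : Pt n d p q) (h1 : cls x = cls y) (h2 : pos x = pos y) : x = y := by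
  rcases x with x | x | x <;> rcases y with y | y | y <;> simp_all [cls, pos, Fin.ext_iff, Prod.ext_iff]

lemma cls_Z {x : Pt n d p q} {z : Fin (n * d + 1)} (h : cls x = cls (Z z : Pt n d p q)) :
    ∃ z', x = Z z' := by
  rcases x with x | x | x
  · exact ⟨x, rfl⟩
  · simp [cls, Z] at h
  · simp [cls, Z] at h

lemma cls_L {x : Pt n d p q} {i : Fin n} {l : Fin p} (h : cls x = cls (L i l : Pt n d p q)) :
    ∃ l', x = L i l' := by
  rcases x with x | x | x
  · simp [cls, L] at h
  · refine ⟨x.2, ?_⟩
    simp only [cls, L, Sum.inr.injEq, Sum.inl.injEq] at h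
    rw [← h]
    rfl
  · simp [cls, L] at h

lemma cls_U {x : Pt n d p q} {i : Fin n} {u : Fin q} (h : cls x = cls (U i u : Pt n d p q)) :
    ∃ u', x = U i u' := by
  rcases x with x | x | x
  · simp [cls, U] at h
  · simp [cls, U] at h
  · refine ⟨x.2, ?_⟩
    simp only [cls, U, Sum.inr.injEq] at h
    rw [← h]
    rfl

lemma mul_lt (i : Fin n) : (i : ℕ) * d < n * d + 1 := by
  have := Nat.mul_le_mul_right d i.2.le
  omega

lemma succ_mul_lt (i : Fin n) : ((i : ℕ) + 1) * d < n * d + 1 := by
  have := Nat.mul_le_mul_right d (show (i : ℕ) + 1 ≤ n from i.2)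
  omega

/-- The element `X_i`, the foot of the `i`-th lower chain. -/
def zL (i : Fin n) : Fin (n * d + 1) := ⟨i * d, mul_lt i⟩
/-- The element `X_{i+1}`, the top of the `i`-th upper chain. -/
def zU (i : Fin n) : Fin (n * d + 1) := ⟨(i + 1) * d, succ_mul_lt i⟩

/-- Linear extensions. -/
def IsExt (σ : Ord (Pt n d p q)) : Prop :=
  Sorted cls pos σ ∧ (∀ i l, σ (L i l) < σ (Z (zL i))) ∧ (∀ i u, σ (Z (zU i)) < σ (U i u))

/-- Weak cross relations for block labels. -/
def Weak (c : Pt n d p q → Fin K) : Prop :=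
  (∀ i l, #{z : Fin (n * d + 1) | c (Z z) < c (L i l)} ≤ i * d) ∧
  (∀ i u, (i + 1) * d < #{z : Fin (n * d + 1) | c (Z z) ≤ c (U i u)})

/-- Strict cross relations for block labels. -/
def Strict (c : Pt n d p q → Fin K) : Prop :=
  (∀ i l, #{z : Fin (n * d + 1) | c (Z z) ≤ c (L i l)} ≤ i * d) ∧
  (∀ i u, (i + 1) * d < #{z : Fin (n * d + 1) | c (Z z) < c (U i u)})

lemma sorted_Z {σ : Ord (Pt n d p q)} (h : Sorted cls pos σ) (z z' : Fin (n * d + 1)) :
    σ (Z z) < σ (Z z') ↔ z < z' := by
  have key : ∀ z z' : Fin (n * d + 1), z < z' → σ (Z z) < σ (Z z') := fun z z' hz => h _ _ rfl hz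
  constructor
  · intro hlt
    rcases lt_trichotomy z z' with h1 | h1 | h1
    · exact h1
    · subst h1
      exact absurd hlt (lt_irrefl _)
    · exact absurd (key _ _ h1) (not_lt.2 hlt.le)
  · exact key z z'

lemma sorted_Z_le {σ : Ord (Pt n d p q)} (h : Sorted cls pos σ) (z z' : Fin (n * d + 1)) :
    σ (Z z) ≤ σ (Z z') ↔ z ≤ z' := by
  rw [← not_lt, sorted_Z h, not_lt]

lemma strict_mem (c : Pt n d p q → Fin K) (hc : Strict c) (τ : Ord (Pt n d p q)) :
    ∃ σ, IsExt σ ∧ ∃ π ∈ clsPerm (cls : Pt n d p q → _), lex c τ = Equiv.trans π σ := by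
  classical
  obtain ⟨π, hπ, hs⟩ := sort_exists cls pos (lex c τ)
  have hπ' := (mem_clsPerm _).1 hπ
  refine ⟨π.trans (lex c τ), ⟨hs, ?_, ?_⟩, π.symm, ?_, ?_⟩
  · intro i l
    obtain ⟨l', hl'⟩ := cls_L (hπ' (L i l))
    by_contra hlt
    have hlt : (π.trans (lex c τ)) (Z (zL i)) < (π.trans (lex c τ)) (L i l) := by
      rcases lt_trichotomy ((π.trans (lex c τ)) (Z (zL i))) ((π.trans (lex c τ)) (L i l))
        with h | h | h
      · exact h
      · have := (π.trans (lex c τ)).injective h
        simp [Z, L] at this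
      · exact absurd h hlt
    have h1 := hc.1 i l'
    have h2 : i * d + 1 ≤ #{z : Fin (n * d + 1) | c (Z z) ≤ c (L i l')} := by
      have h3 : #(Finset.Iic (zL i : Fin (n * d + 1))) = i * d + 1 := by
        rw [Fin.card_Iic]
        rfl
      rw [← h3]
      choose g hg using fun z : Fin (n * d + 1) => cls_Z (hπ' (Z z))
      apply Finset.card_le_card_of_injOn g
      · intro z hz
        simp only [coe_Iic, Set.mem_Iic] at hz
        simp only [coe_filter, mem_univ, true_and, Set.mem_ofPred_eq]
        rw [← hg z, ← hl']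
        apply le_of_lex_lt (τ := τ)
        exact lt_of_le_of_lt ((sorted_Z_le hs z (zL i)).2 hz) hlt
      · intro z _ z' _ hzz
        have := congrArg (Z : _ → Pt n d p q) hzz
        rw [← hg z, ← hg z'] at this
        have := π.injective this
        simpa [Z] using this
    omega
  · intro i u
    obtain ⟨u', hu'⟩ := cls_U (hπ' (U i u))
    by_contra hlt
    have hlt : (π.trans (lex c τ)) (U i u) < (π.trans (lex c τ)) (Z (zU i)) := by
      rcases lt_trichotomy ((π.trans (lex c τ)) (U i u)) ((π.trans (lex c τ)) (Z (zU i)))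
        with h | h | h
      · exact h
      · have := (π.trans (lex c τ)).injective h
        simp [Z, U] at this
      · exact absurd h hlt
    have h1 := hc.2 i u'
    have h2 : #{z : Fin (n * d + 1) | c (Z z) < c (U i u')} ≤ (i + 1) * d := by
      have h3 : #(Finset.Iio (zU i : Fin (n * d + 1))) = (i + 1) * d := by
        rw [Fin.card_Iio]
        rfl
      rw [← h3]
      have hπs : ∀ x, cls (π.symm x) = cls x := by
        intro x
        have := hπ' (π.symm x)
        rw [Equiv.apply_symm_apply] at this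
        exact this.symm
      choose g hg using fun z : Fin (n * d + 1) => cls_Z (hπs (Z z))
      apply Finset.card_le_card_of_injOn g
      · intro z hz
        simp only [coe_filter, mem_univ, true_and, Set.mem_ofPred_eq] at hz
        simp only [coe_Iio, Set.mem_Iio]
        by_contra hge
        rw [not_lt] at hge
        have h4 : (π.trans (lex c τ)) (U i u) < (π.trans (lex c τ)) (Z (g z)) :=
          lt_of_lt_of_le hlt ((sorted_Z_le hs _ _).2 hge)
        rw [← hg z] at h4
        simp only [Equiv.trans_apply, Equiv.apply_symm_apply, hu'] at h4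
        exact absurd (le_of_lex_lt h4) (not_le.2 hz)
      · intro z _ z' _ hzz
        have := congrArg (Z : _ → Pt n d p q) hzz
        rw [← hg z, ← hg z'] at this
        have := π.symm.injective this
        simpa [Z] using this
    omega
  · rw [mem_clsPerm]
    intro x
    have := hπ' (π.symm x)
    rw [Equiv.apply_symm_apply] at this
    exact this.symm
  · rw [← Equiv.trans_assoc, Equiv.symm_trans_self, Equiv.refl_trans]

lemma weak_of_mem (c : Pt n d p q → Fin K) (τ σ : Ord (Pt n d p q)) (hσ : IsExt σ)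
    (π : Equiv.Perm (Pt n d p q)) (hπ : π ∈ clsPerm (cls : Pt n d p q → _))
    (h : lex c τ = Equiv.trans π σ) : Weak c := by
  classical
  have hπ' := (mem_clsPerm _).1 hπ
  have hs := hσ.1
  have hπs : ∀ x, cls (π.symm x) = cls x := by
    intro x
    have := hπ' (π.symm x)
    rw [Equiv.apply_symm_apply] at this
    exact this.symm
  constructor
  · intro i l
    obtain ⟨l', hl'⟩ := cls_L (hπ' (L i l))
    have h3 : #(Finset.Iio (zL i : Fin (n * d + 1))) = i * d := by
      rw [Fin.card_Iio]
      rfl
    rw [← h3]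
    choose g hg using fun z : Fin (n * d + 1) => cls_Z (hπ' (Z z))
    apply Finset.card_le_card_of_injOn g
    · intro z hz
      simp only [coe_filter, mem_univ, true_and, Set.mem_ofPred_eq] at hz
      simp only [coe_Iio, Set.mem_Iio]
      rw [← sorted_Z hs]
      have h4 := lex_lt_of_lt (τ := τ) hz
      rw [h] at h4
      simp only [Equiv.trans_apply, hl', hg] at h4
      exact h4.trans (hσ.2.1 i l')
    · intro z _ z' _ hzz
      have := congrArg (Z : _ → Pt n d p q) hzz
      rw [← hg z, ← hg z'] at this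
      have := π.injective this
      simpa [Z] using this
  · intro i u
    obtain ⟨u', hu'⟩ := cls_U (hπ' (U i u))
    have h3 : #(Finset.Iic (zU i : Fin (n * d + 1))) = (i + 1) * d + 1 := by
      rw [Fin.card_Iic]
      rfl
    have : (i + 1) * d + 1 ≤ #{z : Fin (n * d + 1) | c (Z z) ≤ c (U i u)} := by
      rw [← h3]
      choose g hg using fun z : Fin (n * d + 1) => cls_Z (hπs (Z z))
      apply Finset.card_le_card_of_injOn g
      · intro z hz
        simp only [coe_Iic, Set.mem_Iic] at hz
        simp only [coe_filter, mem_univ, true_and, Set.mem_ofPred_eq]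
        apply le_of_lex_lt (τ := τ)
        rw [h]
        rw [← hg z]
        simp only [Equiv.trans_apply, hu', Equiv.apply_symm_apply]
        exact lt_of_le_of_lt ((sorted_Z_le hs _ _).2 hz) (hσ.2.2 i u')
      · intro z _ z' _ hzz
        have := congrArg (Z : _ → Pt n d p q) hzz
        rw [← hg z, ← hg z'] at this
        have := π.symm.injective this
        simpa [Z] using this
    omega

/-- The block of the `j`-th backbone element. -/
lemma height_of_mem (c : Pt n d p q → Fin K) (τ σ : Ord (Pt n d p q)) (hσ : IsExt σ)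
    (π : Equiv.Perm (Pt n d p q)) (hπ : π ∈ clsPerm (cls : Pt n d p q → _))
    (h : lex c τ = Equiv.trans π σ) (j : Fin (n * d + 1)) :
    ∃ v : Fin K, #{x : Pt n d p q | c x < v} ≤ (σ (Z j) : ℕ) ∧
      (σ (Z j) : ℕ) ≤ #{x : Pt n d p q | c x ≤ v} ∧
      #{z : Fin (n * d + 1) | c (Z z) < v} ≤ j ∧
      (j : ℕ) < #{z : Fin (n * d + 1) | c (Z z) ≤ v} := by
  classical
  have hπ' := (mem_clsPerm _).1 hπ
  have hs := hσ.1
  have hπs : ∀ x, cls (π.symm x) = cls x := by
    intro x
    have := hπ' (π.symm x)
    rw [Equiv.apply_symm_apply] at this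
    exact this.symm
  choose g hg using fun z : Fin (n * d + 1) => cls_Z (hπ' (Z z))
  choose g' hg' using fun z : Fin (n * d + 1) => cls_Z (hπs (Z z))
  have hgg' : ∀ z, g (g' z) = z := by
    intro z
    have h1 := hg (g' z)
    rw [← hg' z, Equiv.apply_symm_apply] at h1
    simpa [Z] using h1.symm
  have hlexZ : ∀ z, lex c τ (Z z) = σ (Z (g z)) := by
    intro z
    rw [h, Equiv.trans_apply, hg]
  have hj : lex c τ (Z (g' j)) = σ (Z j) := by rw [hlexZ, hgg']
  refine ⟨c (Z (g' j)), ?_, ?_, ?_, ?_⟩
  · rw [← hj, ← card_lt_eq]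
    apply Finset.card_le_card
    intro x hx
    simp only [mem_filter, mem_univ, true_and] at hx ⊢
    exact lex_lt_of_lt hx
  · rw [← hj, ← card_lt_eq]
    apply Finset.card_le_card
    intro x hx
    simp only [mem_filter, mem_univ, true_and] at hx ⊢
    exact le_of_lex_lt hx
  · have h3 : #(Finset.Iio j) = (j : ℕ) := Fin.card_Iio j
    rw [← h3]
    apply Finset.card_le_card_of_injOn g
    · intro z hz
      simp only [coe_filter, mem_univ, true_and, Set.mem_ofPred_eq] at hz
      simp only [coe_Iio, Set.mem_Iio]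
      rw [← sorted_Z hs, ← hlexZ, ← hj]
      exact lex_lt_of_lt hz
    · intro z _ z' _ hzz
      have := congrArg (Z : _ → Pt n d p q) hzz
      rw [← hg z, ← hg z'] at this
      have := π.injective this
      simpa [Z] using this
  · have h3 : #(Finset.Iic j) = (j : ℕ) + 1 := Fin.card_Iic j
    have : (j : ℕ) + 1 ≤ #{z : Fin (n * d + 1) | c (Z z) ≤ c (Z (g' j))} := by
      rw [← h3]
      apply Finset.card_le_card_of_injOn g'
      · intro z hz
        simp only [coe_Iic, Set.mem_Iic] at hz
        simp only [coe_filter, mem_univ, true_and, Set.mem_ofPred_eq]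
        rcases hz.lt_or_eq with hlt | heq
        · apply le_of_lex_lt (τ := τ)
          rw [hlexZ, hlexZ, hgg', hgg']
          exact (sorted_Z hs _ _).2 hlt
        · rw [heq]
      · intro z _ z' _ hzz
        have := congrArg g hzz
        rwa [hgg', hgg'] at this
    omega

end Pool.Agent.ClusterPoset
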