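import Pool.Agent.ClusterPoset.Count

/-!
# The number of labellings
-/

set_option autoImplicit false

namespace Pool.Agent.ClusterPoset

open Finset

variable {n d p q K : ℕ}

/-- The number of class preserving permutations. -/
noncomputable def numG (n d p q : ℕ) : ℕ := #(clsPerm (cls : Pt n d p q → _))

lemma numG_pos : 0 < numG n d p q := by
  apply Finset.card_pos.2
  exact ⟨1, (mem_clsPerm _).2 fun x => rfl⟩

theorem upper_count (Eb : Finset (Ord (Pt n d p q))) (hE : ∀ σ ∈ Eb, IsExt σ)
    (T : Finset (Pt n d p q → Fin K)) (hT : ∀ c ∈ T, ∀ π : Equiv.Perm (Pt n d p q), c ∘ π ∈ T)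
    (W : Finset (Pt n d p q → Fin K))
    (hW : ∀ σ ∈ Eb, ∀ c ∈ T, ∀ τ, ∀ π ∈ clsPerm (cls : Pt n d p q → _),
      lex c τ = Equiv.trans π σ → c ∈ W) :
    #Eb * numG n d p q * #T ≤ Fintype.card (Ord (Pt n d p q)) * #W := by
  classical
  have h1 := card_lex (spread cls Eb) T hT
  rw [card_spread (pos := pos) cls_pos Eb (fun σ hσ => (hE σ hσ).1)] at h1
  have h2 : Fintype.card (Ord (Pt n d p q)) * #W
      = #((Finset.univ : Finset (Ord (Pt n d p q))) ×ˢ W) := by
    rw [card_product, card_univ]
  rw [numG, ← h1, h2]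
  apply Finset.card_le_card
  intro x hx
  simp only [mem_filter, mem_product, mem_univ, true_and] at hx ⊢
  obtain ⟨hxT, hx⟩ := hx
  rw [spread, mem_image] at hx
  obtain ⟨y, hy, hyx⟩ := hx
  rw [mem_product] at hy
  exact hW y.1 hy.1 x.2 hxT x.1 y.2 hy.2 hyx.symm

theorem lower_count (E : Finset (Ord (Pt n d p q))) (hE : ∀ σ, σ ∈ E ↔ IsExt σ)
    (W : Finset (Pt n d p q → Fin K)) (hW : ∀ c ∈ W, Strict c) :
    Fintype.card (Ord (Pt n d p q)) * #W
      ≤ #E * numG n d p q * K ^ (Fintype.card (Pt n d p q)) := by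
  classical
  have h1 : K ^ (Fintype.card (Pt n d p q)) = #(Finset.univ : Finset (Pt n d p q → Fin K)) := by
    rw [card_univ, Fintype.card_fun, Fintype.card_fin]
  have h2 := card_lex (spread cls E) (Finset.univ : Finset (Pt n d p q → Fin K))
    (fun _ _ _ => mem_univ _)
  rw [card_spread (pos := pos) cls_pos E (fun σ hσ => ((hE σ).1 hσ).1)] at h2
  have h3 : Fintype.card (Ord (Pt n d p q)) * #W
      = #((Finset.univ : Finset (Ord (Pt n d p q))) ×ˢ W) := by
    rw [card_product, card_univ]
  rw [h1, numG, ← h2, h3]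
  apply Finset.card_le_card
  intro x hx
  simp only [mem_filter, mem_product, mem_univ, true_and] at hx ⊢
  obtain ⟨σ, hσ, π, hπ, h⟩ := strict_mem x.2 (hW _ hx) x.1
  rw [spread, mem_image]
  exact ⟨(σ, π), mem_product.2 ⟨(hE σ).2 hσ, hπ⟩, h.symm⟩

/-! ### Labellings with given labels on the backbone -/

lemma card_labels (B : Finset (Fin (n * d + 1) → Fin K))
    (SL : (Fin (n * d + 1) → Fin K) → Fin n → Finset (Fin K))
    (SU : (Fin (n * d + 1) → Fin K) → Fin n → Finset (Fin K))
    (W : Finset (Pt n d p q → Fin K))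
    (hW : ∀ c, c ∈ W ↔ (fun z => c (Z z)) ∈ B ∧
      (∀ i l, c (L i l) ∈ SL (fun z => c (Z z)) i) ∧ (∀ i u, c (U i u) ∈ SU (fun z => c (Z z)) i)) :
    #W = ∑ b ∈ B, (∏ i, #(SL b i) ^ p) * ∏ i, #(SU b i) ^ q := by
  classical
  have h1 : ∀ b, (∏ i, #(SL b i) ^ p) * ∏ i, #(SU b i) ^ q
      = #((Fintype.piFinset fun x : Fin n × Fin p => SL b x.1) ×ˢ
          (Fintype.piFinset fun x : Fin n × Fin q => SU b x.1)) := by
    intro b
    rw [card_product, Fintype.card_piFinset, Fintype.card_piFinset, Fintype.prod_prod_type,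
      Fintype.prod_prod_type]
    simp
  simp only [h1]
  rw [← Finset.card_sigma]
  apply Finset.card_bij' (fun c _ => (⟨fun z => c (Z z),
      (fun x => c (L x.1 x.2), fun x => c (U x.1 x.2))⟩ :
        Σ _ : Fin (n * d + 1) → Fin K, (Fin n × Fin p → Fin K) × (Fin n × Fin q → Fin K)))
    (fun y _ => Sum.elim y.1 (Sum.elim y.2.1 y.2.2))
  · intro c hc
    rw [hW] at hc
    simp only [mem_sigma, mem_product, Fintype.mem_piFinset]
    exact ⟨hc.1, fun x => hc.2.1 x.1 x.2, fun x => hc.2.2 x.1 x.2⟩
  · intro y hy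
    simp only [mem_sigma, mem_product, Fintype.mem_piFinset] at hy
    rw [hW]
    exact ⟨hy.1, fun i l => hy.2.1 (i, l), fun i u => hy.2.2 (i, u)⟩
  · intro c _
    funext x
    rcases x with x | x | x <;> rfl
  · intro y _
    rfl

section sorted
variable {N : ℕ}

/-- The sorted sequence of labels. -/
def srt (b : Fin N → Fin K) : Fin N → Fin K := b ∘ Tuple.sort b

lemma srt_mono (b : Fin N → Fin K) : Monotone (srt b) := Tuple.monotone_sort b

lemma card_lt_srt (b : Fin N → Fin K) (v : Fin K) :
    #{z : Fin N | b z < v} = #{z : Fin N | srt b z < v} := by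
  symm
  apply Finset.card_bij (fun z _ => Tuple.sort b z)
  · intro z hz
    rw [mem_filter] at hz ⊢
    exact ⟨mem_univ _, hz.2⟩
  · intro z _ z' _ h
    exact (Tuple.sort b).injective h
  · intro z hz
    refine ⟨(Tuple.sort b).symm z, ?_, by simp⟩
    rw [mem_filter] at hz ⊢
    refine ⟨mem_univ _, ?_⟩
    rw [srt, Function.comp_apply, Equiv.apply_symm_apply]
    exact hz.2

lemma card_le_srt (b : Fin N → Fin K) (v : Fin K) :
    #{z : Fin N | b z ≤ v} = #{z : Fin N | srt b z ≤ v} := by
  symm
  apply Finset.card_bij (fun z _ => Tuple.sort b z)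
  · intro z hz
    rw [mem_filter] at hz ⊢
    exact ⟨mem_univ _, hz.2⟩
  · intro z _ z' _ h
    exact (Tuple.sort b).injective h
  · intro z hz
    refine ⟨(Tuple.sort b).symm z, ?_, by simp⟩
    rw [mem_filter] at hz ⊢
    refine ⟨mem_univ _, ?_⟩
    rw [srt, Function.comp_apply, Equiv.apply_symm_apply]
    exact hz.2

lemma lt_le_iff (b : Fin N → Fin K) (v : Fin K) (j : Fin N) :
    #{z : Fin N | b z < v} ≤ (j : ℕ) ↔ v ≤ srt b j := by
  rw [card_lt_srt]
  constructor
  · intro h
    by_contra hlt
    rw [not_le] at hlt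
    have h1 : #(Finset.Iic j) ≤ #{z : Fin N | srt b z < v} := by
      apply Finset.card_le_card
      intro z hz
      simp only [mem_Iic] at hz
      simp only [mem_filter, mem_univ, true_and]
      exact lt_of_le_of_lt (srt_mono b hz) hlt
    rw [Fin.card_Iic] at h1
    omega
  · intro h
    have h1 : #{z : Fin N | srt b z < v} ≤ #(Finset.Iio j) := by
      apply Finset.card_le_card
      intro z hz
      simp only [mem_filter, mem_univ, true_and] at hz
      simp only [mem_Iio]
      by_contra hge
      rw [not_lt] at hge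
      exact absurd (lt_of_le_of_lt (h.trans (srt_mono b hge)) hz) (lt_irrefl _)
    rw [Fin.card_Iio] at h1
    exact h1

lemma le_le_iff (b : Fin N → Fin K) (v : Fin K) (j : Fin N) :
    #{z : Fin N | b z ≤ v} ≤ (j : ℕ) ↔ v < srt b j := by
  rw [card_le_srt]
  constructor
  · intro h
    by_contra hlt
    rw [not_lt] at hlt
    have h1 : #(Finset.Iic j) ≤ #{z : Fin N | srt b z ≤ v} := by
      apply Finset.card_le_card
      intro z hz
      simp only [mem_Iic] at hz
      simp only [mem_filter, mem_univ, true_and]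
      exact (srt_mono b hz).trans hlt
    rw [Fin.card_Iic] at h1
    omega
  · intro h
    have h1 : #{z : Fin N | srt b z ≤ v} ≤ #(Finset.Iio j) := by
      apply Finset.card_le_card
      intro z hz
      simp only [mem_filter, mem_univ, true_and] at hz
      simp only [mem_Iio]
      by_contra hge
      rw [not_lt] at hge
      exact absurd (lt_of_lt_of_le h ((srt_mono b hge).trans hz)) (lt_irrefl _)
    rw [Fin.card_Iio] at h1
    exact h1

end sorted

/-- The number of weak labellings. -/
theorem card_weak (B : Finset (Fin (n * d + 1) → Fin K)) (W : Finset (Pt n d p q → Fin K))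
    (hW : ∀ c, c ∈ W ↔ (fun z => c (Z z)) ∈ B ∧ Weak c) :
    #W = ∑ b ∈ B, (∏ i : Fin n, ((srt b (zL i) : ℕ) + 1) ^ p)
      * ∏ i : Fin n, (K - (srt b (zU i) : ℕ)) ^ q := by
  rw [card_labels B (fun b i => {v | #{z : Fin (n * d + 1) | b z < v} ≤ i * d})
    (fun b i => {v | (i + 1) * d < #{z : Fin (n * d + 1) | b z ≤ v}}) W]
  · apply Finset.sum_congr rfl
    intro b _
    congr 1
    · apply Finset.prod_congr rfl
      intro i _
      congr 1
      have : ({v : Fin K | #{z : Fin (n * d + 1) | b z < v} ≤ i * d} : Finset (Fin K))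
          = Finset.Iic (srt b (zL i)) := by
        ext v
        simp only [mem_filter, mem_univ, true_and, mem_Iic]
        exact lt_le_iff b v (zL i)
      rw [this, Fin.card_Iic]
    · apply Finset.prod_congr rfl
      intro i _
      congr 1
      have : ({v : Fin K | (i + 1) * d < #{z : Fin (n * d + 1) | b z ≤ v}} : Finset (Fin K))
          = Finset.Ici (srt b (zU i)) := by
        ext v
        simp only [mem_filter, mem_univ, true_and, mem_Ici]
        rw [← not_le, ← not_lt (a := v)]
        exact (le_le_iff b v (zU i)).not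
      rw [this, Fin.card_Ici]
  · intro c
    rw [hW, Weak]
    simp only [mem_filter, mem_univ, true_and]

/-- The number of strict labellings. -/
theorem card_strict (B : Finset (Fin (n * d + 1) → Fin K)) (W : Finset (Pt n d p q → Fin K))
    (hW : ∀ c, c ∈ W ↔ (fun z => c (Z z)) ∈ B ∧ Strict c) :
    #W = ∑ b ∈ B, (∏ i : Fin n, (srt b (zL i) : ℕ) ^ p)
      * ∏ i : Fin n, (K - 1 - (srt b (zU i) : ℕ)) ^ q := by
  rw [card_labels B (fun b i => {v | #{z : Fin (n * d + 1) | b z ≤ v} ≤ i * d})
    (fun b i => {v | (i + 1) * d < #{z : Fin (n * d + 1) | b z < v}}) W]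
  · apply Finset.sum_congr rfl
    intro b _
    congr 1
    · apply Finset.prod_congr rfl
      intro i _
      congr 1
      have : ({v : Fin K | #{z : Fin (n * d + 1) | b z ≤ v} ≤ i * d} : Finset (Fin K))
          = Finset.Iio (srt b (zL i)) := by
        ext v
        simp only [mem_filter, mem_univ, true_and, mem_Iio]
        exact le_le_iff b v (zL i)
      rw [this, Fin.card_Iio]
    · apply Finset.prod_congr rfl
      intro i _
      congr 1
      have : ({v : Fin K | (i + 1) * d < #{z : Fin (n * d + 1) | b z < v}} : Finset (Fin K))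
          = Finset.Ioi (srt b (zU i)) := by
        ext v
        simp only [mem_filter, mem_univ, true_and, mem_Ioi]
        rw [← not_le, ← not_le (a := v)]
        exact (lt_le_iff b v (zU i)).not
      rw [this, Fin.card_Ioi]
  · intro c
    rw [hW, Strict]
    simp only [mem_filter, mem_univ, true_and]

end Pool.Agent.ClusterPoset
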