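import Mathlib

/-!
# Cluster posets and their linear extensions: definitions

Indices start at `0` in Lean: `A i j` is the element `A_{i+1,j+1}` of the problem.
-/

set_option autoImplicit false

namespace Pool.Agent.ClusterPoset

/-- The identifications `A_{i,b} = A_{i+1,a}`, `1 ≤ i ≤ n - 1`: the pair `x` is `(i,b)` and the pair
`y` is `(i+1,a)`. -/
def Glue (n m a b : ℕ) (x y : Fin n × Fin m) : Prop :=
  (y.1 : ℕ) = x.1 + 1 ∧ (x.2 : ℕ) + 1 = b ∧ (y.2 : ℕ) + 1 = a

/-- The set of elements of the cluster poset `P_n^{m,a,b}`. -/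
def Cluster (n m a b : ℕ) : Type := Quot (Glue n m a b)

variable {n m a b : ℕ}

/-- The element `A_{i+1,j+1}`. -/
def A (i : Fin n) (j : Fin m) : Cluster n m a b := Quot.mk _ (i, j)

/-- The strict order of `P_n^{m,a,b}`: it is generated by the chains
`A_{i,1} < A_{i,2} < ... < A_{i,m}`. -/
def Below (x y : Cluster n m a b) : Prop :=
  Relation.TransGen (fun x y : Cluster n m a b =>
    ∃ (i : Fin n) (j j' : Fin m), j < j' ∧ x = A i j ∧ y = A i j') x y

/-- `r` (read `r x y` as `x ≺ y`) is a linear extension: a strict total order that contains the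
order of the poset. -/
structure IsLinExt (r : Cluster n m a b → Cluster n m a b → Prop) : Prop where
  irrefl : ∀ x, ¬ r x x
  trans : ∀ x y z, r x y → r y z → r x z
  total : ∀ x y, r x y ∨ x = y ∨ r y x
  extends_order : ∀ x y, Below x y → r x y

/-- The height `#{y : y ≺ x}`. -/
noncomputable def ht (r : Cluster n m a b → Cluster n m a b → Prop) (x : Cluster n m a b) : ℕ :=
  Nat.card {y // r y x}

/-- `x` is the distinguished element `X_i`: `X_i = A_{i+1,a}` for `0 ≤ i ≤ n - 1` and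
`X_i = A_{i,b}` for `1 ≤ i ≤ n`. -/
def IsX (i : ℕ) (x : Cluster n m a b) : Prop :=
  (∃ (k : Fin n) (j : Fin m), (k : ℕ) = i ∧ (j : ℕ) + 1 = a ∧ x = A k j) ∨
  (∃ (k : Fin n) (j : Fin m), (k : ℕ) + 1 = i ∧ (j : ℕ) + 1 = b ∧ x = A k j)

/-- `α = (a-1)/(b-a) + 1` -/
noncomputable def alpha (a b : ℕ) : ℝ := ((a : ℝ) - 1) / ((b : ℝ) - a) + 1

/-- `β = (m-b)/(b-a) + 1` -/
noncomputable def beta (m a b : ℕ) : ℝ := ((m : ℝ) - b) / ((b : ℝ) - a) + 1

/-- The beta distribution function `g`. -/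
noncomputable def g (m a b : ℕ) (t : ℝ) : ℝ :=
  (∫ u in (0 : ℝ)..t, u ^ (alpha a b - 1) * (1 - u) ^ (beta m a b - 1)) /
    ∫ u in (0 : ℝ)..1, u ^ (alpha a b - 1) * (1 - u) ^ (beta m a b - 1)

/-- The inverse `f` of `g` on `[0,1]`. -/
noncomputable def f (m a b : ℕ) : ℝ → ℝ := Function.invFunOn (g m a b) (Set.Icc 0 1)

/-- Every `X_i` has height `|P_n| f((i+1)/(n+2))` up to `ε |P_n|`. -/
def Good (ε : ℝ) (r : Cluster n m a b → Cluster n m a b → Prop) : Prop :=
  ∀ (i : ℕ) (x : Cluster n m a b), i ≤ n → IsX i x →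
    |(ht r x : ℝ) - Nat.card (Cluster n m a b) * f m a b (((i : ℝ) + 1) / ((n : ℝ) + 2))|
      ≤ ε * Nat.card (Cluster n m a b)

/-- The probability that a uniformly random linear extension of `P_n^{m,a,b}` is `Good ε`. -/
noncomputable def prob (n m a b : ℕ) (ε : ℝ) : ℝ :=
  (Nat.card {r : Cluster n m a b → Cluster n m a b → Prop // IsLinExt r ∧ Good ε r} : ℝ) /
    Nat.card {r : Cluster n m a b → Cluster n m a b → Prop // IsLinExt r}

end Pool.Agent.ClusterPoset
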