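import Pool.Agent.ClusterPoset.Transport

/-!
# The limit theorem
-/

set_option autoImplicit false

namespace Pool.Agent.ClusterPoset

open Finset Filter

variable {n d p q : ℕ}

lemma g_eq (d p q : ℕ) : g (mm d p q) (p + 1) (p + 1 + d) = gg d p q := by
  have ea : alpha (p + 1) (p + 1 + d) - 1 = (p : ℝ) / d := by
    unfold alpha
    push_cast
    rw [add_sub_cancel_right]
    congr 1 <;> ring
  have eb : beta (mm d p q) (p + 1) (p + 1 + d) - 1 = (q : ℝ) / d := by
    unfold beta mm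
    push_cast
    rw [add_sub_cancel_right]
    congr 1 <;> ring
  funext t
  unfold g gg II phi
  rw [ea, eb]

lemma f_spec (d p q : ℕ) (y : ℝ) (h0 : 0 ≤ y) (h1 : y ≤ 1) :
    0 ≤ f (mm d p q) (p + 1) (p + 1 + d) y ∧ f (mm d p q) (p + 1) (p + 1 + d) y ≤ 1 ∧
      gg d p q (f (mm d p q) (p + 1) (p + 1 + d) y) = y := by
  have hsurj : y ∈ gg d p q '' Set.Icc 0 1 := by
    have h := intermediate_value_Icc (zero_le_one (α := ℝ)) (gg_cont d p q).continuousOn
    rw [gg_zero, gg_one] at h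
    exact h ⟨h0, h1⟩
  unfold f
  rw [g_eq]
  have h2 := Function.invFunOn_mem hsurj
  have h3 := Function.invFunOn_eq hsurj
  exact ⟨h2.1, h2.2, h3⟩

lemma card_cluster (hn : 0 < n) (hd : 0 < d) :
    Nat.card (Cluster n (mm d p q) (p + 1) (p + 1 + d)) = Fintype.card (Pt n d p q) := by
  rw [Nat.card_congr (eqv hn hd), Nat.card_eq_fintype_card]

lemma isX_iff (hn : 0 < n) (hd : 0 < d) (i : ℕ) (hi : i ≤ n) (z : Fin (n * d + 1))
    (hz : (z : ℕ) = i * d) (x : Cluster n (mm d p q) (p + 1) (p + 1 + d)) :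
    IsX i x ↔ eqv hn hd x = Z z := by
  constructor
  · rintro (⟨k, j, hk, hj, rfl⟩ | ⟨k, j, hk, hj, rfl⟩)
    · rw [eqv_A]
      apply fwd0_Z
      · omega
      · omega
      · rw [hz, ← hk]
        have : (j : ℕ) - p = 0 := by omega
        omega
    · rw [eqv_A]
      apply fwd0_Z
      · omega
      · omega
      · rw [hz, ← hk, Nat.succ_mul]
        have : (j : ℕ) - p = d := by omega
        omega
  · intro h
    rcases hi.lt_or_eq with h1 | h1
    · left
      refine ⟨⟨i, h1⟩, ⟨p, by simp only [mm]; omega⟩, rfl, rfl, ?_⟩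
      apply (eqv hn hd).injective
      rw [h, eqv_A]
      symm
      apply fwd0_Z
      · simp
      · simp
      · simp only
        omega
    · right
      refine ⟨⟨n - 1, by omega⟩, ⟨p + d, by simp only [mm]; omega⟩, by simp only; omega,
        by simp only; omega, ?_⟩
      apply (eqv hn hd).injective
      rw [h, eqv_A]
      symm
      apply fwd0_Z
      · simp
      · simp
      · simp only
        have : (n - 1) * d + d = n * d := by
          rw [← Nat.succ_mul]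
          congr 1
          omega
        rw [hz, h1]
        omega

lemma good_rel (hn : 0 < n) (hd : 0 < d) (ε : ℝ) (σ : Ord (Pt n d p q)) (hσ : IsExt σ) :
    Good ε (rel hn hd σ) ↔
      σ ∉ Bad n d p q (f (mm d p q) (p + 1) (p + 1 + d)) ε := by
  rw [mem_Bad]
  constructor
  · rintro hg ⟨_, i, z, hi, hz, hbad⟩
    have hx : IsX i ((eqv (p := p) (q := q) hn hd).symm (Z z)) := by
      rw [isX_iff hn hd i hi z hz, Equiv.apply_symm_apply]
    have h1 := hg i _ hi hx
    rw [ht_rel, Equiv.apply_symm_apply, card_cluster hn hd] at h1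
    exact absurd hbad (not_lt.2 h1)
  · intro hnb i x hi hx
    by_contra hlt
    rw [not_le] at hlt
    apply hnb
    have hlt' : i * d < n * d + 1 := by
      have := Nat.mul_le_mul_right d hi
      omega
    refine ⟨hσ, i, ⟨i * d, hlt'⟩, hi, rfl, ?_⟩
    have h1 := (isX_iff hn hd i hi ⟨i * d, hlt'⟩ rfl x).1 hx
    rw [ht_rel, h1, card_cluster hn hd] at hlt
    exact hlt

lemma card_ext (hn : 0 < n) (hd : 0 < d) :
    Nat.card {r : Cluster n (mm d p q) (p + 1) (p + 1 + d) →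
      Cluster n (mm d p q) (p + 1) (p + 1 + d) → Prop // IsLinExt r} = #(Ext n d p q) := by
  classical
  have e : {σ // σ ∈ Ext n d p q} ≃ {r : Cluster n (mm d p q) (p + 1) (p + 1 + d) →
      Cluster n (mm d p q) (p + 1) (p + 1 + d) → Prop // IsLinExt r} :=
    Equiv.ofBijective (fun σ => ⟨rel hn hd σ.1, (isLinExt_rel hn hd _).2 ((mem_Ext _).1 σ.2)⟩) (by
      constructor
      · intro σ σ' h
        exact Subtype.ext (rel_injective hn hd (Subtype.ext_iff.1 h))
      · rintro ⟨r, hr⟩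
        obtain ⟨σ, rfl⟩ := exists_rel hn hd r hr
        exact ⟨⟨σ, (mem_Ext _).2 ((isLinExt_rel hn hd _).1 hr)⟩, rfl⟩)
  rw [← Nat.card_congr e, Nat.card_eq_fintype_card, Fintype.card_coe]

lemma card_good (hn : 0 < n) (hd : 0 < d) (ε : ℝ) :
    Nat.card {r : Cluster n (mm d p q) (p + 1) (p + 1 + d) →
      Cluster n (mm d p q) (p + 1) (p + 1 + d) → Prop // IsLinExt r ∧ Good ε r}
      = #(Ext n d p q \ Bad n d p q (f (mm d p q) (p + 1) (p + 1 + d)) ε) := by
  classical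
  have e : {σ // σ ∈ Ext n d p q \ Bad n d p q (f (mm d p q) (p + 1) (p + 1 + d)) ε} ≃
      {r : Cluster n (mm d p q) (p + 1) (p + 1 + d) →
      Cluster n (mm d p q) (p + 1) (p + 1 + d) → Prop // IsLinExt r ∧ Good ε r} :=
    Equiv.ofBijective (fun σ => ⟨rel hn hd σ.1, by
      have h := mem_sdiff.1 σ.2
      have h1 := (mem_Ext _).1 h.1
      exact ⟨(isLinExt_rel hn hd _).2 h1, (good_rel hn hd ε _ h1).2 h.2⟩⟩) (by
      constructor
      · intro σ σ' h
        exact Subtype.ext (rel_injective hn hd (Subtype.ext_iff.1 h))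
      · rintro ⟨r, hr, hg⟩
        obtain ⟨σ, rfl⟩ := exists_rel hn hd r hr
        have h1 := (isLinExt_rel hn hd _).1 hr
        exact ⟨⟨σ, mem_sdiff.2 ⟨(mem_Ext _).2 h1, (good_rel hn hd ε _ h1).1 hg⟩⟩, rfl⟩)
  rw [← Nat.card_congr e, Nat.card_eq_fintype_card, Fintype.card_coe]

theorem main (m a b : ℕ) (h1 : 1 ≤ a) (h2 : a < b) (h3 : b ≤ m) (ε : ℝ) (hε : 0 < ε) :
    Tendsto (fun n => prob n m a b ε) atTop (nhds 1) := by
  obtain ⟨p, rfl⟩ : ∃ p, a = p + 1 := ⟨a - 1, by omega⟩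
  obtain ⟨d, rfl⟩ : ∃ d, b = p + 1 + d := ⟨b - (p + 1), by omega⟩
  obtain ⟨q, rfl⟩ : ∃ q, m = p + 1 + d + q := ⟨m - (p + 1 + d), by omega⟩
  have hd : 0 < d := by omega
  change Tendsto (fun n => prob n (mm d p q) (p + 1) (p + 1 + d) ε) atTop (nhds 1)
  rw [Metric.tendsto_atTop]
  intro δ hδ
  obtain ⟨n0, hn0⟩ := bad_small hd p q (f (mm d p q) (p + 1) (p + 1 + d))
    (fun y hy0 hy1 => f_spec d p q y hy0 hy1) ε hε (δ / 2) (by positivity)
  refine ⟨max n0 1, fun n hn => ?_⟩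
  have hn1 : 0 < n := lt_of_lt_of_le one_pos ((le_max_right _ _).trans hn)
  obtain ⟨hpos, hbad⟩ := hn0 n ((le_max_left _ _).trans hn)
  have hE : (0 : ℝ) < #(Ext n d p q) := by exact_mod_cast hpos
  have hsub : Bad n d p q (f (mm d p q) (p + 1) (p + 1 + d)) ε ⊆ Ext n d p q := by
    intro σ hσ
    rw [mem_Ext]
    exact ((mem_Bad _ _ _).1 hσ).1
  rw [prob, card_good hn1 hd ε, card_ext hn1 hd, card_sdiff_of_subset hsub,
    Nat.cast_sub (card_le_card hsub), sub_div, div_self hE.ne', Real.dist_eq]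
  have h4 : (#(Bad n d p q (f (mm d p q) (p + 1) (p + 1 + d)) ε) : ℝ) / #(Ext n d p q)
      ≤ δ / 2 := by
    rw [div_le_iff₀ hE]
    exact hbad
  have h5 : 0 ≤ (#(Bad n d p q (f (mm d p q) (p + 1) (p + 1 + d)) ε) : ℝ) / #(Ext n d p q) := by
    positivity
  rw [abs_lt]
  constructor <;> linarith

/-- The number of elements of the cluster poset. -/
theorem card_eq (n m a b : ℕ) (hn : 1 ≤ n) (h1 : 1 ≤ a) (h2 : a < b) (h3 : b ≤ m) :
    Nat.card (Cluster n m a b) = (m - 1) * n + 1 := by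
  obtain ⟨p, rfl⟩ : ∃ p, a = p + 1 := ⟨a - 1, by omega⟩
  obtain ⟨d, rfl⟩ : ∃ d, b = p + 1 + d := ⟨b - (p + 1), by omega⟩
  obtain ⟨q, rfl⟩ : ∃ q, m = p + 1 + d + q := ⟨m - (p + 1 + d), by omega⟩
  have := card_cluster (n := n) (d := d) (p := p) (q := q) (by omega) (by omega)
  rw [mm] at this
  rw [this]
  simp only [Fintype.card_sum, Fintype.card_fin, Fintype.card_prod]
  have : p + 1 + d + q - 1 = p + d + q := by omega
  rw [this]
  ring

/-- `g` is a strictly increasing bijection of `[0,1]`, so that `f` is its inverse. -/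
theorem g_bij (m a b : ℕ) (h1 : 1 ≤ a) (h2 : a < b) (h3 : b ≤ m) :
    StrictMonoOn (g m a b) (Set.Icc 0 1) ∧ Set.BijOn (g m a b) (Set.Icc 0 1) (Set.Icc 0 1) := by
  obtain ⟨p, rfl⟩ : ∃ p, a = p + 1 := ⟨a - 1, by omega⟩
  obtain ⟨d, rfl⟩ : ∃ d, b = p + 1 + d := ⟨b - (p + 1), by omega⟩
  obtain ⟨q, rfl⟩ : ∃ q, m = p + 1 + d + q := ⟨m - (p + 1 + d), by omega⟩
  change StrictMonoOn (g (mm d p q) (p + 1) (p + 1 + d)) (Set.Icc 0 1) ∧
    Set.BijOn (g (mm d p q) (p + 1) (p + 1 + d)) (Set.Icc 0 1) (Set.Icc 0 1)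
  rw [g_eq]
  have hs : StrictMonoOn (gg d p q) (Set.Icc 0 1) := fun x hx y hy hxy =>
    gg_lt d p q hx.1 hxy hy.2
  refine ⟨hs, ?_, hs.injOn, ?_⟩
  · intro x hx
    constructor
    · have := gg_le d p q le_rfl hx.1 hx.2
      rwa [gg_zero] at this
    · have := gg_le d p q hx.1 hx.2 le_rfl
      rwa [gg_one] at this
  · have h := intermediate_value_Icc (zero_le_one (α := ℝ)) (gg_cont d p q).continuousOn
    rwa [gg_zero, gg_one] at h

end Pool.Agent.ClusterPoset
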