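import Pool.Agent.ClusterPoset.Count2

/-!
# Telescoping inequalities
-/

set_option autoImplicit false

namespace Pool.Agent.ClusterPoset

open Finset

section tele
variable {d : ℕ} (hd : 0 < d) (p : ℕ) (u : ℕ → ℝ) (h0 : ∀ j, 0 < u j)

include hd h0

lemma pow_eq (x : ℕ) : (∏ _s ∈ range d, u x ^ ((p : ℝ) / d)) = u x ^ p := by
  rw [prod_const, card_range, ← Real.rpow_natCast, ← Real.rpow_mul (h0 x).le, div_mul_cancel₀,
    Real.rpow_natCast]
  exact_mod_cast hd.ne'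

lemma tele1 (hu : Monotone u) (n : ℕ) :
    ∏ i ∈ range n, u (i * d) ^ p ≤ ∏ j ∈ range (n * d), u j ^ ((p : ℝ) / d) := by
  induction n with
  | zero => simp
  | succ n ih =>
    rw [prod_range_succ, Nat.succ_mul, prod_range_add]
    apply mul_le_mul ih _ (pow_nonneg (h0 _).le _)
      (prod_nonneg fun j _ => Real.rpow_nonneg (h0 _).le _)
    rw [← pow_eq hd p u h0]
    apply prod_le_prod
    · intro s _
      exact Real.rpow_nonneg (h0 _).le _
    · intro s _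
      exact Real.rpow_le_rpow (h0 _).le (hu (by omega)) (by positivity)

lemma tele2 (hu : Antitone u) (n : ℕ) :
    ∏ i ∈ range n, u ((i + 1) * d) ^ p ≤ ∏ j ∈ range (n * d), u (j + 1) ^ ((p : ℝ) / d) := by
  induction n with
  | zero => simp
  | succ n ih =>
    rw [prod_range_succ, Nat.succ_mul, prod_range_add]
    apply mul_le_mul ih _ (pow_nonneg (h0 _).le _)
      (prod_nonneg fun j _ => Real.rpow_nonneg (h0 _).le _)
    rw [← pow_eq hd p u h0]
    apply prod_le_prod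
    · intro s _
      exact Real.rpow_nonneg (h0 _).le _
    · intro s hs
      rw [mem_range] at hs
      exact Real.rpow_le_rpow (h0 _).le (hu (by omega)) (by positivity)

lemma tele3 (hu : Monotone u) (n : ℕ) :
    u 0 ^ p * ∏ j ∈ range (n * d), u (j + 1) ^ ((p : ℝ) / d)
      ≤ (∏ i ∈ range n, u (i * d) ^ p) * u (n * d) ^ p := by
  induction n with
  | zero => simp
  | succ n ih =>
    have h1 : ∏ s ∈ range d, u (n * d + s + 1) ^ ((p : ℝ) / d) ≤ u ((n + 1) * d) ^ p := by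
      rw [← pow_eq hd p u h0]
      apply prod_le_prod
      · intro s _
        exact Real.rpow_nonneg (h0 _).le _
      · intro s hs
        rw [mem_range] at hs
        exact Real.rpow_le_rpow (h0 _).le (hu (by rw [Nat.succ_mul]; omega)) (by positivity)
    rw [prod_range_succ, Nat.succ_mul, prod_range_add, ← mul_assoc, ← Nat.succ_mul]
    exact mul_le_mul ih h1 (prod_nonneg fun j _ => Real.rpow_nonneg (h0 _).le _)
      (mul_nonneg (prod_nonneg fun j _ => pow_nonneg (h0 _).le _) (pow_nonneg (h0 _).le _))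

lemma tele4 (hu : Antitone u) (n : ℕ) :
    u (n * d) ^ p * ∏ j ∈ range (n * d), u j ^ ((p : ℝ) / d)
      ≤ u 0 ^ p * ∏ i ∈ range n, u ((i + 1) * d) ^ p := by
  induction n with
  | zero => simp
  | succ n ih =>
    have h1 : ∏ s ∈ range d, u (n * d + s) ^ ((p : ℝ) / d) ≤ u (n * d) ^ p := by
      rw [← pow_eq hd p u h0]
      apply prod_le_prod
      · intro s _
        exact Real.rpow_nonneg (h0 _).le _
      · intro s hs
        exact Real.rpow_le_rpow (h0 _).le (hu (by omega)) (by positivity)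
    rw [prod_range_succ (fun i => u ((i + 1) * d) ^ p), Nat.succ_mul, prod_range_add,
      ← Nat.succ_mul]
    have h2 : 0 ≤ ∏ j ∈ range (n * d), u j ^ ((p : ℝ) / d) :=
      prod_nonneg fun j _ => Real.rpow_nonneg (h0 _).le _
    have h3 : 0 ≤ u ((n + 1) * d) ^ p := pow_nonneg (h0 _).le _
    calc u ((n + 1) * d) ^ p * ((∏ j ∈ range (n * d), u j ^ ((p : ℝ) / d))
          * ∏ s ∈ range d, u (n * d + s) ^ ((p : ℝ) / d))
        ≤ u ((n + 1) * d) ^ p * ((∏ j ∈ range (n * d), u j ^ ((p : ℝ) / d)) * u (n * d) ^ p) :=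
          mul_le_mul_of_nonneg_left (mul_le_mul_of_nonneg_left h1 h2) h3
      _ = (u (n * d) ^ p * ∏ j ∈ range (n * d), u j ^ ((p : ℝ) / d)) * u ((n + 1) * d) ^ p := by
          ring
      _ ≤ (u 0 ^ p * ∏ i ∈ range n, u ((i + 1) * d) ^ p) * u ((n + 1) * d) ^ p :=
          mul_le_mul_of_nonneg_right ih h3
      _ = _ := by ring

end tele

section bounds
variable {n d p q K : ℕ}

/-- Upper step function. -/
noncomputable def phiU (d p q K : ℕ) (c : Fin K) : ℝ :=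
  (((c : ℕ) + 1 : ℝ) / K) ^ ((p : ℝ) / d) * (((K : ℝ) - (c : ℕ)) / K) ^ ((q : ℝ) / d)

/-- Lower step function. -/
noncomputable def phiL (d p q K : ℕ) (c : Fin K) : ℝ :=
  (((c : ℕ) : ℝ) / K) ^ ((p : ℝ) / d) * (((K : ℝ) - 1 - (c : ℕ)) / K) ^ ((q : ℝ) / d)

lemma phiU_pos (c : Fin K) : 0 < phiU d p q K c := by
  have hK : 0 < (K : ℝ) := by exact_mod_cast c.pos
  have hc : ((c : ℕ) : ℝ) < K := by exact_mod_cast c.2
  unfold phiU
  have h1 : 0 < ((c : ℕ) + 1 : ℝ) / K := by positivity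
  have h2 : 0 < ((K : ℝ) - (c : ℕ)) / K := div_pos (by linarith) hK
  positivity

/-- The sorted sequence as a sequence on `ℕ`. -/
def seq (b : Fin (n * d + 1) → Fin K) (j : ℕ) : ℕ := srt b ⟨min j (n * d), by omega⟩

lemma seq_mono (b : Fin (n * d + 1) → Fin K) : Monotone (seq b) := by
  intro i j hij
  apply srt_mono b
  show min i (n * d) ≤ min j (n * d)
  omega

lemma seq_lt (b : Fin (n * d + 1) → Fin K) (j : ℕ) : seq b j < K := Fin.is_lt _

lemma seq_zL (b : Fin (n * d + 1) → Fin K) (i : Fin n) :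
    (srt b (zL i) : ℕ) = seq b (i * d) := by
  unfold seq zL
  congr 2
  ext
  have := mul_lt (d := d) i
  simp only
  omega

lemma seq_zU (b : Fin (n * d + 1) → Fin K) (i : Fin n) :
    (srt b (zU i) : ℕ) = seq b ((i + 1) * d) := by
  unfold seq zU
  congr 2
  ext
  have := succ_mul_lt (d := d) i
  simp only
  omega

lemma prod_seq (b : Fin (n * d + 1) → Fin K) (F : ℕ → ℝ) :
    ∏ j ∈ range (n * d + 1), F (seq b j) = ∏ z, F (b z) := by
  rw [Finset.prod_range]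
  rw [← Equiv.prod_comp (Tuple.sort b) (fun z => F (b z))]
  apply Finset.prod_congr rfl
  intro z _
  congr 1
  unfold seq srt
  have : (⟨min (z : ℕ) (n * d), by omega⟩ : Fin (n * d + 1)) = z := by
    ext
    have := z.2
    simp only
    omega
  rw [this]
  rfl

/-- Upper bound for the weight of a labelling of the backbone. -/
lemma weak_weight (hd : 0 < d) (b : Fin (n * d + 1) → Fin K) :
    (((∏ i : Fin n, ((srt b (zL i) : ℕ) + 1) ^ p) * ∏ i : Fin n, (K - (srt b (zU i) : ℕ)) ^ q :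
      ℕ) : ℝ) ≤ (K : ℝ) ^ (n * p + n * q) * (K : ℝ) ^ ((p : ℝ) / d + (q : ℝ) / d)
        * ∏ z, phiU d p q K (b z) := by
  have hKn : 0 < K := (b 0).pos
  have hK : 0 < (K : ℝ) := by exact_mod_cast hKn
  let u : ℕ → ℝ := fun j => ((seq b j : ℝ) + 1) / K
  let v : ℕ → ℝ := fun j => ((K : ℝ) - (seq b j : ℝ)) / K
  have hlt : ∀ j, (seq b j : ℝ) + 1 ≤ K := fun j => by exact_mod_cast seq_lt b j
  have hu0 : ∀ j, 0 < u j := fun j => by
    have : (0 : ℝ) ≤ seq b j := Nat.cast_nonneg _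
    show 0 < ((seq b j : ℝ) + 1) / K
    positivity
  have hv0 : ∀ j, 0 < v j := fun j => div_pos (by linarith [hlt j]) hK
  have hum : Monotone u := by
    intro i j hij
    have : (seq b i : ℝ) ≤ seq b j := by exact_mod_cast seq_mono b hij
    show ((seq b i : ℝ) + 1) / K ≤ ((seq b j : ℝ) + 1) / K
    gcongr
  have hva : Antitone v := by
    intro i j hij
    have : (seq b i : ℝ) ≤ seq b j := by exact_mod_cast seq_mono b hij
    show ((K : ℝ) - (seq b j : ℝ)) / K ≤ ((K : ℝ) - (seq b i : ℝ)) / K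
    gcongr
  have e1 : ((∏ i : Fin n, ((srt b (zL i) : ℕ) + 1) ^ p : ℕ) : ℝ)
      = (K : ℝ) ^ (n * p) * ∏ i ∈ range n, u (i * d) ^ p := by
    push_cast
    rw [Finset.prod_range (fun i => u (i * d) ^ p), mul_comm n p, pow_mul]
    rw [← Fin.prod_const n ((K : ℝ) ^ p), ← Finset.prod_mul_distrib]
    apply Finset.prod_congr rfl
    intro i _
    rw [seq_zL, ← mul_pow]
    congr 1
    show (seq b (i * d) : ℝ) + 1 = K * (((seq b (i * d) : ℝ) + 1) / K)
    field_simp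
  have e2 : ((∏ i : Fin n, (K - (srt b (zU i) : ℕ)) ^ q : ℕ) : ℝ)
      = (K : ℝ) ^ (n * q) * ∏ i ∈ range n, v ((i + 1) * d) ^ q := by
    push_cast
    rw [Finset.prod_range (fun i => v ((i + 1) * d) ^ q), mul_comm n q, pow_mul]
    rw [← Fin.prod_const n ((K : ℝ) ^ q), ← Finset.prod_mul_distrib]
    apply Finset.prod_congr rfl
    intro i _
    rw [seq_zU, Nat.cast_sub (seq_lt b _).le, ← mul_pow]
    congr 1
    show (K : ℝ) - (seq b ((i + 1) * d) : ℝ) = K * (((K : ℝ) - (seq b ((i + 1) * d) : ℝ)) / K)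
    field_simp
  have hinv : ∀ (x : ℝ) (a : ℝ), 0 ≤ a → 1 / (K : ℝ) ≤ x → 1 ≤ (K : ℝ) ^ a * x ^ a := by
    intro x a ha hx
    have hx0 : 0 < x := lt_of_lt_of_le (by positivity) hx
    rw [← Real.mul_rpow hK.le hx0.le]
    apply Real.one_le_rpow _ ha
    calc (1 : ℝ) = K * (1 / K) := by field_simp
      _ ≤ K * x := by gcongr
  have t1 : ∏ i ∈ range n, u (i * d) ^ p
      ≤ (K : ℝ) ^ ((p : ℝ) / d) * ∏ j ∈ range (n * d + 1), u j ^ ((p : ℝ) / d) := by
    have h1 := tele1 hd p u hu0 hum n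
    have h2 := hinv (u (n * d)) ((p : ℝ) / d) (by positivity) (by
      show 1 / (K : ℝ) ≤ ((seq b (n * d) : ℝ) + 1) / K
      gcongr
      have : (0 : ℝ) ≤ seq b (n * d) := Nat.cast_nonneg _
      linarith)
    rw [prod_range_succ]
    have h3 : 0 ≤ ∏ j ∈ range (n * d), u j ^ ((p : ℝ) / d) :=
      prod_nonneg fun j _ => Real.rpow_nonneg (hu0 _).le _
    calc ∏ i ∈ range n, u (i * d) ^ p ≤ ∏ j ∈ range (n * d), u j ^ ((p : ℝ) / d) := h1
      _ = (∏ j ∈ range (n * d), u j ^ ((p : ℝ) / d)) * 1 := (mul_one _).symm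
      _ ≤ (∏ j ∈ range (n * d), u j ^ ((p : ℝ) / d))
          * ((K : ℝ) ^ ((p : ℝ) / d) * u (n * d) ^ ((p : ℝ) / d)) :=
          mul_le_mul_of_nonneg_left h2 h3
      _ = _ := by ring
  have t2 : ∏ i ∈ range n, v ((i + 1) * d) ^ q
      ≤ (K : ℝ) ^ ((q : ℝ) / d) * ∏ j ∈ range (n * d + 1), v j ^ ((q : ℝ) / d) := by
    have h1 := tele2 hd q v hv0 hva n
    have h2 := hinv (v 0) ((q : ℝ) / d) (by positivity) (by
      show 1 / (K : ℝ) ≤ ((K : ℝ) - (seq b 0 : ℝ)) / K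
      gcongr
      linarith [hlt 0])
    rw [prod_range_succ']
    have h3 : 0 ≤ ∏ j ∈ range (n * d), v (j + 1) ^ ((q : ℝ) / d) :=
      prod_nonneg fun j _ => Real.rpow_nonneg (hv0 _).le _
    calc ∏ i ∈ range n, v ((i + 1) * d) ^ q ≤ ∏ j ∈ range (n * d), v (j + 1) ^ ((q : ℝ) / d) := h1
      _ = (∏ j ∈ range (n * d), v (j + 1) ^ ((q : ℝ) / d)) * 1 := (mul_one _).symm
      _ ≤ (∏ j ∈ range (n * d), v (j + 1) ^ ((q : ℝ) / d))
          * ((K : ℝ) ^ ((q : ℝ) / d) * v 0 ^ ((q : ℝ) / d)) :=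
          mul_le_mul_of_nonneg_left h2 h3
      _ = _ := by ring
  have e3 : ∏ z, phiU d p q K (b z)
      = (∏ j ∈ range (n * d + 1), u j ^ ((p : ℝ) / d))
        * ∏ j ∈ range (n * d + 1), v j ^ ((q : ℝ) / d) := by
    rw [← Finset.prod_mul_distrib]
    exact (prod_seq b (fun c => (((c : ℝ) + 1) / K) ^ ((p : ℝ) / d)
      * (((K : ℝ) - (c : ℝ)) / K) ^ ((q : ℝ) / d))).symm
  rw [Nat.cast_mul, e1, e2, e3, pow_add, Real.rpow_add hK]
  have p1 : 0 ≤ ∏ i ∈ range n, u (i * d) ^ p := prod_nonneg fun j _ => pow_nonneg (hu0 _).le _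
  have p2 : 0 ≤ ∏ i ∈ range n, v ((i + 1) * d) ^ q :=
    prod_nonneg fun j _ => pow_nonneg (hv0 _).le _
  calc (K : ℝ) ^ (n * p) * (∏ i ∈ range n, u (i * d) ^ p)
        * ((K : ℝ) ^ (n * q) * ∏ i ∈ range n, v ((i + 1) * d) ^ q)
      = (K : ℝ) ^ (n * p) * (K : ℝ) ^ (n * q) * ((∏ i ∈ range n, u (i * d) ^ p)
        * ∏ i ∈ range n, v ((i + 1) * d) ^ q) := by ring
    _ ≤ (K : ℝ) ^ (n * p) * (K : ℝ) ^ (n * q)
        * (((K : ℝ) ^ ((p : ℝ) / d) * ∏ j ∈ range (n * d + 1), u j ^ ((p : ℝ) / d))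
        * ((K : ℝ) ^ ((q : ℝ) / d) * ∏ j ∈ range (n * d + 1), v j ^ ((q : ℝ) / d))) := by
        apply mul_le_mul_of_nonneg_left _ (by positivity)
        exact mul_le_mul t1 t2 p2 (p1.trans t1)
    _ = _ := by ring

/-- Lower bound for the weight of a labelling of the backbone. -/
lemma strict_weight (hd : 0 < d) (b : Fin (n * d + 1) → Fin K)
    (hb : ∀ z, 1 ≤ (b z : ℕ) ∧ (b z : ℕ) + 2 ≤ K) :
    (K : ℝ) ^ (n * p + n * q) * ((1 / (K : ℝ)) ^ p * (1 / (K : ℝ)) ^ q)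
        * ∏ z, phiL d p q K (b z)
      ≤ (((∏ i : Fin n, (srt b (zL i) : ℕ) ^ p)
        * ∏ i : Fin n, (K - 1 - (srt b (zU i) : ℕ)) ^ q : ℕ) : ℝ) := by
  have hKn : 0 < K := (b 0).pos
  have hK : 0 < (K : ℝ) := by exact_mod_cast hKn
  have hs : ∀ j, 1 ≤ seq b j ∧ seq b j + 2 ≤ K := fun j => hb _
  have hs1 : ∀ j, (1 : ℝ) ≤ seq b j := fun j => by exact_mod_cast (hs j).1
  have hs2 : ∀ j, (seq b j : ℝ) + 2 ≤ K := fun j => by exact_mod_cast (hs j).2
  let u : ℕ → ℝ := fun j => (seq b j : ℝ) / K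
  let v : ℕ → ℝ := fun j => ((K : ℝ) - 1 - (seq b j : ℝ)) / K
  have hu1 : ∀ j, 1 / (K : ℝ) ≤ u j := fun j => by
    show 1 / (K : ℝ) ≤ (seq b j : ℝ) / K
    gcongr
    exact hs1 j
  have hv1 : ∀ j, 1 / (K : ℝ) ≤ v j := fun j => by
    show 1 / (K : ℝ) ≤ ((K : ℝ) - 1 - (seq b j : ℝ)) / K
    gcongr
    linarith [hs2 j]
  have hu2 : ∀ j, u j ≤ 1 := fun j => by
    show (seq b j : ℝ) / K ≤ 1
    rw [div_le_one hK]
    linarith [hs2 j]
  have hv2 : ∀ j, v j ≤ 1 := fun j => by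
    show ((K : ℝ) - 1 - (seq b j : ℝ)) / K ≤ 1
    rw [div_le_one hK]
    linarith [hs1 j]
  have hpos : 0 < 1 / (K : ℝ) := by positivity
  have hu0 : ∀ j, 0 < u j := fun j => lt_of_lt_of_le hpos (hu1 j)
  have hv0 : ∀ j, 0 < v j := fun j => lt_of_lt_of_le hpos (hv1 j)
  have hum : Monotone u := by
    intro i j hij
    have : (seq b i : ℝ) ≤ seq b j := by exact_mod_cast seq_mono b hij
    show (seq b i : ℝ) / K ≤ (seq b j : ℝ) / K
    gcongr
  have hva : Antitone v := by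
    intro i j hij
    have : (seq b i : ℝ) ≤ seq b j := by exact_mod_cast seq_mono b hij
    show ((K : ℝ) - 1 - (seq b j : ℝ)) / K ≤ ((K : ℝ) - 1 - (seq b i : ℝ)) / K
    gcongr
  have e1 : ((∏ i : Fin n, (srt b (zL i) : ℕ) ^ p : ℕ) : ℝ)
      = (K : ℝ) ^ (n * p) * ∏ i ∈ range n, u (i * d) ^ p := by
    push_cast
    rw [Finset.prod_range (fun i => u (i * d) ^ p), mul_comm n p, pow_mul]
    rw [← Fin.prod_const n ((K : ℝ) ^ p), ← Finset.prod_mul_distrib]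
    apply Finset.prod_congr rfl
    intro i _
    rw [seq_zL, ← mul_pow]
    congr 1
    show (seq b (i * d) : ℝ) = K * ((seq b (i * d) : ℝ) / K)
    field_simp
  have e2 : ((∏ i : Fin n, (K - 1 - (srt b (zU i) : ℕ)) ^ q : ℕ) : ℝ)
      = (K : ℝ) ^ (n * q) * ∏ i ∈ range n, v ((i + 1) * d) ^ q := by
    push_cast
    rw [Finset.prod_range (fun i => v ((i + 1) * d) ^ q), mul_comm n q, pow_mul]
    rw [← Fin.prod_const n ((K : ℝ) ^ q), ← Finset.prod_mul_distrib]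
    apply Finset.prod_congr rfl
    intro i _
    rw [seq_zU]
    have h2 := (hs ((i + 1) * d)).2
    rw [Nat.cast_sub (by omega), Nat.cast_sub (by omega), ← mul_pow]
    congr 1
    show (K : ℝ) - ((1 : ℕ) : ℝ) - (seq b ((i + 1) * d) : ℝ)
      = K * (((K : ℝ) - 1 - (seq b ((i + 1) * d) : ℝ)) / K)
    push_cast
    field_simp
  have t1 : (1 / (K : ℝ)) ^ p * ∏ j ∈ range (n * d + 1), u j ^ ((p : ℝ) / d)
      ≤ ∏ i ∈ range n, u (i * d) ^ p := by
    have h1 := tele3 hd p u hu0 hum n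
    rw [prod_range_succ']
    have h3 : 0 ≤ ∏ j ∈ range (n * d), u (j + 1) ^ ((p : ℝ) / d) :=
      prod_nonneg fun j _ => Real.rpow_nonneg (hu0 _).le _
    have h4 : u 0 ^ ((p : ℝ) / d) ≤ 1 := Real.rpow_le_one (hu0 _).le (hu2 _) (by positivity)
    have h5 : (1 / (K : ℝ)) ^ p ≤ u 0 ^ p := pow_le_pow_left₀ hpos.le (hu1 0) p
    have h6 : u (n * d) ^ p ≤ 1 := pow_le_one₀ (hu0 _).le (hu2 _)
    calc (1 / (K : ℝ)) ^ p * ((∏ j ∈ range (n * d), u (j + 1) ^ ((p : ℝ) / d))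
          * u 0 ^ ((p : ℝ) / d))
        ≤ u 0 ^ p * ((∏ j ∈ range (n * d), u (j + 1) ^ ((p : ℝ) / d)) * 1) := by
          apply mul_le_mul h5 (mul_le_mul_of_nonneg_left h4 h3)
            (mul_nonneg h3 (Real.rpow_nonneg (hu0 _).le _)) (pow_nonneg (hu0 _).le _)
      _ ≤ (∏ i ∈ range n, u (i * d) ^ p) * u (n * d) ^ p := by rw [mul_one]; exact h1
      _ ≤ (∏ i ∈ range n, u (i * d) ^ p) * 1 :=
          mul_le_mul_of_nonneg_left h6 (prod_nonneg fun j _ => pow_nonneg (hu0 _).le _)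
      _ = _ := mul_one _
  have t2 : (1 / (K : ℝ)) ^ q * ∏ j ∈ range (n * d + 1), v j ^ ((q : ℝ) / d)
      ≤ ∏ i ∈ range n, v ((i + 1) * d) ^ q := by
    have h1 := tele4 hd q v hv0 hva n
    rw [prod_range_succ]
    have h3 : 0 ≤ ∏ j ∈ range (n * d), v j ^ ((q : ℝ) / d) :=
      prod_nonneg fun j _ => Real.rpow_nonneg (hv0 _).le _
    have h4 : v (n * d) ^ ((q : ℝ) / d) ≤ 1 := Real.rpow_le_one (hv0 _).le (hv2 _) (by positivity)
    have h5 : (1 / (K : ℝ)) ^ q ≤ v (n * d) ^ q := pow_le_pow_left₀ hpos.le (hv1 _) q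
    have h6 : v 0 ^ q ≤ 1 := pow_le_one₀ (hv0 _).le (hv2 _)
    calc (1 / (K : ℝ)) ^ q * ((∏ j ∈ range (n * d), v j ^ ((q : ℝ) / d))
          * v (n * d) ^ ((q : ℝ) / d))
        ≤ v (n * d) ^ q * ((∏ j ∈ range (n * d), v j ^ ((q : ℝ) / d)) * 1) := by
          apply mul_le_mul h5 (mul_le_mul_of_nonneg_left h4 h3)
            (mul_nonneg h3 (Real.rpow_nonneg (hv0 _).le _)) (pow_nonneg (hv0 _).le _)
      _ ≤ v 0 ^ q * ∏ i ∈ range n, v ((i + 1) * d) ^ q := by rw [mul_one]; exact h1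
      _ ≤ 1 * ∏ i ∈ range n, v ((i + 1) * d) ^ q :=
          mul_le_mul_of_nonneg_right h6 (prod_nonneg fun j _ => pow_nonneg (hv0 _).le _)
      _ = _ := one_mul _
  have e3 : ∏ z, phiL d p q K (b z)
      = (∏ j ∈ range (n * d + 1), u j ^ ((p : ℝ) / d))
        * ∏ j ∈ range (n * d + 1), v j ^ ((q : ℝ) / d) := by
    rw [← Finset.prod_mul_distrib]
    exact (prod_seq b (fun c => ((c : ℝ) / K) ^ ((p : ℝ) / d)
      * (((K : ℝ) - 1 - (c : ℝ)) / K) ^ ((q : ℝ) / d))).symm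
  rw [Nat.cast_mul, e1, e2, e3, pow_add]
  have p1 : 0 ≤ ∏ j ∈ range (n * d + 1), u j ^ ((p : ℝ) / d) :=
    prod_nonneg fun j _ => Real.rpow_nonneg (hu0 _).le _
  have p2 : 0 ≤ ∏ j ∈ range (n * d + 1), v j ^ ((q : ℝ) / d) :=
    prod_nonneg fun j _ => Real.rpow_nonneg (hv0 _).le _
  have p3 : 0 ≤ ∏ i ∈ range n, u (i * d) ^ p := prod_nonneg fun j _ => pow_nonneg (hu0 _).le _
  calc (K : ℝ) ^ (n * p) * (K : ℝ) ^ (n * q) * ((1 / (K : ℝ)) ^ p * (1 / (K : ℝ)) ^ q)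
        * ((∏ j ∈ range (n * d + 1), u j ^ ((p : ℝ) / d))
        * ∏ j ∈ range (n * d + 1), v j ^ ((q : ℝ) / d))
      = (K : ℝ) ^ (n * p) * (K : ℝ) ^ (n * q)
        * (((1 / (K : ℝ)) ^ p * ∏ j ∈ range (n * d + 1), u j ^ ((p : ℝ) / d))
        * ((1 / (K : ℝ)) ^ q * ∏ j ∈ range (n * d + 1), v j ^ ((q : ℝ) / d))) := by ring
    _ ≤ (K : ℝ) ^ (n * p) * (K : ℝ) ^ (n * q) * ((∏ i ∈ range n, u (i * d) ^ p)
        * ∏ i ∈ range n, v ((i + 1) * d) ^ q) := by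
        apply mul_le_mul_of_nonneg_left _ (by positivity)
        exact mul_le_mul t1 t2 (by positivity) p3
    _ = _ := by ring

end bounds

end Pool.Agent.ClusterPoset
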