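import Mathlib

/-!
# Total orders on a finite type, block labels

A total order of a finite type `P` is given by its height function `P ≃ Fin (card P)`.
-/

set_option autoImplicit false

namespace Pool.Agent.ClusterPoset

open Finset

variable {P : Type} [Fintype P] [DecidableEq P]

/-- Total orders of `P`, given by heights. -/
abbrev Ord (P : Type) [Fintype P] : Type := P ≃ Fin (Fintype.card P)

lemma exists_ord (κ : P → ℕ) (hκ : Function.Injective κ) :
    ∃ σ : Ord P, ∀ x y, σ x < σ y ↔ κ x < κ y := by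
  let _ : LinearOrder P := LinearOrder.lift' κ hκ
  let e := (Fintype.orderIsoFinOfCardEq P rfl).symm
  exact ⟨e.toEquiv, fun x y => e.lt_iff_lt⟩

lemma card_lt_eq (σ : Ord P) (x : P) : #{y : P | σ y < σ x} = (σ x : ℕ) := by
  have h : ({y : P | σ y < σ x} : Finset P) = (Finset.Iio (σ x)).map σ.symm.toEmbedding := by
    ext y
    simp only [mem_filter, mem_univ, true_and, mem_map, mem_Iio, Equiv.coe_toEmbedding]
    constructor
    · intro h
      exact ⟨σ y, h, by simp⟩
    · rintro ⟨t, ht, rfl⟩
      simpa using ht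
  rw [h, card_map, Fin.card_Iio]

lemma ord_unique (σ σ' : Ord P) (h : ∀ x y, σ x < σ y ↔ σ' x < σ' y) : σ = σ' := by
  ext x
  rw [← card_lt_eq σ x, ← card_lt_eq σ' x]
  congr 1
  ext y
  simp [h]

variable {K : ℕ}

lemma key_injective (c : P → Fin K) (τ : Ord P) :
    Function.Injective fun x => (c x : ℕ) * Fintype.card P + (τ x : ℕ) := by
  intro x y hxy
  simp only at hxy
  have h1 := (τ x).2
  have h2 := (τ y).2
  have h3 : (c x : ℕ) = c y := by
    rcases lt_trichotomy (c x : ℕ) (c y) with h | h | h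
    · nlinarith
    · exact h
    · nlinarith
  rw [h3] at hxy
  have h4 : (τ x : ℕ) = τ y := by omega
  exact τ.injective (Fin.ext h4)

/-- Sort by `c`, ties broken by `τ`. -/
noncomputable def lex (c : P → Fin K) (τ : Ord P) : Ord P :=
  (exists_ord _ (key_injective c τ)).choose

lemma lex_lt (c : P → Fin K) (τ : Ord P) (x y : P) :
    lex c τ x < lex c τ y ↔
      (c x : ℕ) * Fintype.card P + (τ x : ℕ) < (c y : ℕ) * Fintype.card P + (τ y : ℕ) :=
  (exists_ord _ (key_injective c τ)).choose_spec x y

lemma lex_lt_of_lt {c : P → Fin K} {τ : Ord P} {x y : P} (h : c x < c y) :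
    lex c τ x < lex c τ y := by
  rw [lex_lt]
  have h1 := (τ x).2
  have h2 : (c x : ℕ) + 1 ≤ c y := h
  nlinarith

lemma le_of_lex_lt {c : P → Fin K} {τ : Ord P} {x y : P} (h : lex c τ x < lex c τ y) :
    c x ≤ c y := by
  by_contra h'
  exact absurd (lex_lt_of_lt (τ := τ) (not_le.1 h')) (not_lt.2 h.le)

lemma lex_perm (c : P → Fin K) (τ : Ord P) (π : Equiv.Perm P) :
    lex (c ∘ π) (π.trans τ) = π.trans (lex c τ) := by
  apply ord_unique
  intro x y
  rw [lex_lt]
  simp only [Function.comp_apply, Equiv.trans_apply]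
  rw [lex_lt]

/-- Equidistribution. -/
theorem card_lex (S : Finset (Ord P)) (T : Finset (P → Fin K))
    (hT : ∀ c ∈ T, ∀ π : Equiv.Perm P, c ∘ π ∈ T) :
    #((Finset.univ ×ˢ T).filter fun x : Ord P × (P → Fin K) => lex x.2 x.1 ∈ S) = #S * #T := by
  classical
  let N : Ord P → ℕ := fun σ =>
    #((Finset.univ ×ˢ T).filter fun x : Ord P × (P → Fin K) => lex x.2 x.1 = σ)
  have hN : ∀ (σ : Ord P) (π : Equiv.Perm P), N σ ≤ N (π.trans σ) := by
    intro σ π
    apply Finset.card_le_card_of_injOn (fun x => (π.trans x.1, x.2 ∘ π))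
    · intro x hx
      simp only [coe_filter, mem_product, mem_univ, true_and, Set.mem_ofPred_eq] at hx ⊢
      refine ⟨hT _ hx.1 π, ?_⟩
      rw [lex_perm, hx.2]
    · intro x _ y _ hxy
      simp only [Prod.mk.injEq] at hxy
      ext1
      · have := congrArg (fun e => π.symm.trans e) hxy.1
        simpa [← Equiv.trans_assoc] using this
      · funext z
        have := congrFun hxy.2 (π.symm z)
        simpa using this
  have hN2 : ∀ σ σ' : Ord P, N σ = N σ' := by
    have hle : ∀ σ σ' : Ord P, N σ ≤ N σ' := by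
      intro σ σ'
      have h := hN σ (σ'.trans σ.symm)
      rwa [Equiv.trans_assoc, Equiv.symm_trans_self, Equiv.trans_refl] at h
    exact fun σ σ' => le_antisymm (hle _ _) (hle _ _)
  have hsum : ∀ S' : Finset (Ord P),
      #((Finset.univ ×ˢ T).filter fun x : Ord P × (P → Fin K) => lex x.2 x.1 ∈ S')
        = ∑ σ ∈ S', N σ := by
    intro S'
    rw [Finset.card_eq_sum_card_fiberwise (f := fun x : Ord P × (P → Fin K) => lex x.2 x.1)
      (t := S')]
    · apply Finset.sum_congr rfl
      intro σ hσ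
      congr 1
      ext x
      simp only [mem_filter]
      constructor
      · rintro ⟨⟨h1, _⟩, h3⟩
        exact ⟨h1, h3⟩
      · rintro ⟨h1, h3⟩
        exact ⟨⟨h1, by rw [h3]; exact hσ⟩, h3⟩
    · intro x hx
      simp only [coe_filter, Set.mem_ofPred_eq] at hx
      exact hx.2
  obtain ⟨σ0⟩ : Nonempty (Ord P) := ⟨Fintype.equivFin P⟩
  have h1 : ∑ σ ∈ (Finset.univ : Finset (Ord P)), N σ = Fintype.card (Ord P) * #T := by
    rw [← hsum]
    simp only [mem_univ, filter_true, card_product, card_univ]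
  have h2 : ∀ S' : Finset (Ord P), ∑ σ ∈ S', N σ = #S' * N σ0 := by
    intro S'
    rw [Finset.sum_congr rfl (fun σ _ => hN2 σ σ0)]
    simp
  have h3 : N σ0 = #T := by
    rw [h2, card_univ] at h1
    have hpos : 0 < Fintype.card (Ord P) := Fintype.card_pos_iff.2 ⟨σ0⟩
    exact Nat.eq_of_mul_eq_mul_left hpos h1
  rw [hsum, h2, h3]

/-! ### Sorting inside classes -/

section sorting
variable {ι : Type} [DecidableEq ι] (cls : P → ι) (pos : P → ℕ)

/-- The permutations that keep the classes. -/
def clsPerm : Finset (Equiv.Perm P) := by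
  classical
  exact {π | ∀ x, cls (π x) = cls x}

lemma mem_clsPerm {π : Equiv.Perm P} : π ∈ clsPerm cls ↔ ∀ x, cls (π x) = cls x := by
  classical
  simp [clsPerm]

/-- In each class the order is the one of `pos`. -/
def Sorted (σ : Ord P) : Prop := ∀ x y, cls x = cls y → pos x < pos y → σ x < σ y

lemma sort_exists (σ : Ord P) : ∃ π ∈ clsPerm cls, Sorted cls pos (π.trans σ) := by
  classical
  obtain ⟨π, hπ, hmax⟩ := Finset.exists_max_image (clsPerm cls)
    (fun π : Equiv.Perm P => ∑ x, (pos x : ℤ) * (σ (π x) : ℕ))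
    ⟨1, (mem_clsPerm cls).2 fun x => rfl⟩
  refine ⟨π, hπ, ?_⟩
  intro x y hxy hpos
  by_contra hlt
  have hne : x ≠ y := by
    rintro rfl
    exact lt_irrefl _ hpos
  have hlt' : σ (π y) < σ (π x) := by
    rcases lt_trichotomy (σ (π y)) (σ (π x)) with h | h | h
    · exact h
    · exact absurd (π.injective (σ.injective h)).symm hne
    · exact absurd h hlt
  have hπ' : (Equiv.swap x y).trans π ∈ clsPerm cls := by
    rw [mem_clsPerm] at hπ ⊢
    intro z
    rw [Equiv.trans_apply, hπ]
    by_cases hzx : z = x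
    · subst hzx
      rw [Equiv.swap_apply_left]
      exact hxy.symm
    · by_cases hzy : z = y
      · subst hzy
        rw [Equiv.swap_apply_right]
        exact hxy
      · rw [Equiv.swap_apply_of_ne_of_ne hzx hzy]
  have h := hmax _ hπ'
  have hs : ∀ ρ : Equiv.Perm P, ∑ z, (pos z : ℤ) * (σ (ρ z) : ℕ)
      = (pos x : ℤ) * (σ (ρ x) : ℕ) + (pos y : ℤ) * (σ (ρ y) : ℕ)
        + ∑ z ∈ (Finset.univ.erase x).erase y, (pos z : ℤ) * (σ (ρ z) : ℕ) := by
    intro ρ
    rw [← Finset.add_sum_erase _ _ (mem_univ x),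
      ← Finset.add_sum_erase _ _ (mem_erase.2 ⟨hne.symm, mem_univ y⟩)]
    ring
  rw [hs, hs] at h
  simp only [Equiv.trans_apply, Equiv.swap_apply_left, Equiv.swap_apply_right] at h
  have hrest : ∑ z ∈ (Finset.univ.erase x).erase y,
      (pos z : ℤ) * (σ (π (Equiv.swap x y z)) : ℕ)
      = ∑ z ∈ (Finset.univ.erase x).erase y, (pos z : ℤ) * (σ (π z) : ℕ) := by
    apply Finset.sum_congr rfl
    intro z hz
    simp only [mem_erase, mem_univ, and_true] at hz
    rw [Equiv.swap_apply_of_ne_of_ne hz.2 hz.1]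
  rw [hrest] at h
  have hp : (pos x : ℤ) < pos y := by exact_mod_cast hpos
  have hq : ((σ (π y) : ℕ) : ℤ) < ((σ (π x) : ℕ) : ℤ) := by exact_mod_cast hlt'
  nlinarith

variable {cls pos}

lemma sort_unique (hpos : ∀ x y, cls x = cls y → pos x = pos y → x = y)
    {σ σ' : Ord P} (hσ : Sorted cls pos σ) (hσ' : Sorted cls pos σ')
    {π π' : Equiv.Perm P} (hπ : π ∈ clsPerm cls) (hπ' : π' ∈ clsPerm cls)
    (h : π.trans σ = π'.trans σ') : σ = σ' ∧ π = π' := by
  classical
  rw [mem_clsPerm] at hπ hπ'
  -- `θ = π' ∘ π⁻¹`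
  let θ : Equiv.Perm P := π.symm.trans π'
  have hθ : ∀ x, σ x = σ' (θ x) := by
    intro x
    have := congrArg (fun e => e (π.symm x)) h
    simpa [θ] using this
  have hθc : ∀ x, cls (θ x) = cls x := by
    intro x
    have h1 := hπ (π.symm x)
    rw [Equiv.apply_symm_apply] at h1
    show cls (π' (π.symm x)) = cls x
    rw [hπ', h1]
  have hθp : ∀ x y, cls x = cls y → (pos x < pos y ↔ pos (θ x) < pos (θ y)) := by
    have key : ∀ (ρ : Ord P), Sorted cls pos ρ → ∀ x y, cls x = cls y →
        (pos x < pos y ↔ ρ x < ρ y) := by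
      intro ρ hρ x y hxy
      constructor
      · exact hρ x y hxy
      · intro hlt
        rcases lt_trichotomy (pos x) (pos y) with h1 | h1 | h1
        · exact h1
        · have := hpos x y hxy h1
          subst this
          exact absurd hlt (lt_irrefl _)
        · exact absurd (hρ y x hxy.symm h1) (not_lt.2 hlt.le)
    intro x y hxy
    rw [key σ hσ x y hxy, hθ x, hθ y, key σ' hσ' (θ x) (θ y) (by rw [hθc, hθc, hxy])]
  have hfix : ∀ x, θ x = x := by
    intro x
    apply hpos _ _ (hθc x)
    -- the ranks inside the class agree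
    let rk : P → ℕ := fun z => #{y : P | cls y = cls z ∧ pos y < pos z}
    have hrk : rk (θ x) = rk x := by
      symm
      apply Finset.card_bij (fun y _ => θ y)
      · intro y hy
        simp only [mem_filter, mem_univ, true_and] at hy ⊢
        exact ⟨by rw [hθc, hθc, hy.1], (hθp y x hy.1).1 hy.2⟩
      · intro y _ y' _ hyy
        exact θ.injective hyy
      · intro y hy
        simp only [mem_filter, mem_univ, true_and] at hy
        refine ⟨θ.symm y, ?_, by simp⟩
        have h1 : cls (θ.symm y) = cls y := by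
          have := hθc (θ.symm y)
          rw [Equiv.apply_symm_apply] at this
          exact this.symm
        have h2 : cls (θ.symm y) = cls x := by rw [h1, hy.1, hθc]
        simp only [mem_filter, mem_univ, true_and]
        refine ⟨h2, (hθp _ _ h2).2 ?_⟩
        rw [Equiv.apply_symm_apply]
        exact hy.2
    have hmono : ∀ z w, cls z = cls w → pos z < pos w → rk z < rk w := by
      intro z w hzw hlt
      apply Finset.card_lt_card
      rw [Finset.ssubset_iff_of_subset]
      · refine ⟨z, ?_, ?_⟩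
        · simp [hzw, hlt]
        · simp
      · intro y hy
        simp only [mem_filter, mem_univ, true_and] at hy ⊢
        exact ⟨hy.1.trans hzw, hy.2.trans hlt⟩
    rcases lt_trichotomy (pos (θ x)) (pos x) with h1 | h1 | h1
    · have := hmono _ _ (hθc x) h1
      omega
    · exact h1
    · have := hmono _ _ (hθc x).symm h1
      omega
  have hσσ : σ = σ' := by
    ext x
    rw [hθ, hfix]
  refine ⟨hσσ, ?_⟩
  ext x
  have h1 := hfix (π x)
  simp only [θ, Equiv.trans_apply, Equiv.symm_apply_apply] at h1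
  exact h1.symm

/-- The orders `σ ∘ π`, `σ` in `S`, `π` class preserving. -/
noncomputable def spread (cls : P → ι) (S : Finset (Ord P)) : Finset (Ord P) :=
  (S ×ˢ clsPerm cls).image fun x => x.2.trans x.1

lemma card_spread (hpos : ∀ x y, cls x = cls y → pos x = pos y → x = y) (S : Finset (Ord P))
    (hS : ∀ σ ∈ S, Sorted cls pos σ) : #(spread cls S) = #S * #(clsPerm cls) := by
  classical
  rw [spread, Finset.card_image_of_injOn, card_product]
  intro x hx y hy hxy
  simp only [coe_product, Set.mem_prod, mem_coe] at hx hy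
  obtain ⟨h1, h2⟩ := sort_unique hpos (hS _ hx.1) (hS _ hy.1) hx.2 hy.2 hxy
  exact Prod.ext h1 h2

end sorting

end Pool.Agent.ClusterPoset
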