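import Pool.Agent.ClusterPoset.Defs
import Pool.Agent.ClusterPoset.Core2

/-!
# From the cluster poset to the model `Pt`
-/

set_option autoImplicit false

namespace Pool.Agent.ClusterPoset

open Finset

variable {n d p q : ℕ}

/-- `m` in terms of the lengths. -/
abbrev mm (d p q : ℕ) : ℕ := p + 1 + d + q

/-- The element of `Pt` of an index pair. -/
def fwd0 (x : Fin n × Fin (mm d p q)) : Pt n d p q :=
  if h : (x.2 : ℕ) < p then L x.1 ⟨x.2, h⟩
  else if h' : (x.2 : ℕ) ≤ p + d then Z ⟨x.1 * d + (x.2 - p), by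
    have h1 := x.1.2
    have h2 : ((x.1 : ℕ) + 1) * d ≤ n * d := Nat.mul_le_mul_right d h1
    have h3 : ((x.1 : ℕ) + 1) * d = x.1 * d + d := Nat.succ_mul _ _
    omega⟩
  else U x.1 ⟨x.2 - p - d - 1, by
    have h1 := x.2.2
    simp only [mm] at h1
    omega⟩

lemma fwd0_L (i : Fin n) (j : Fin (mm d p q)) (h : (j : ℕ) < p) :
    fwd0 (i, j) = (L i ⟨j, h⟩ : Pt n d p q) := by
  unfold fwd0
  rw [dif_pos h]

lemma fwd0_Z (i : Fin n) (j : Fin (mm d p q)) (h : p ≤ (j : ℕ)) (h' : (j : ℕ) ≤ p + d)
    (z : Fin (n * d + 1)) (hz : (z : ℕ) = i * d + (j - p)) :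
    fwd0 (i, j) = (Z z : Pt n d p q) := by
  unfold fwd0
  rw [dif_neg (not_lt.2 h), dif_pos h']
  congr 1
  exact Fin.ext hz.symm

lemma fwd0_U (i : Fin n) (j : Fin (mm d p q)) (h : p + d < (j : ℕ)) (u : Fin q)
    (hu : (u : ℕ) = j - p - d - 1) :
    fwd0 (i, j) = (U i u : Pt n d p q) := by
  unfold fwd0
  rw [dif_neg (by simp only; omega), dif_neg (not_le.2 h)]
  congr 1
  exact Fin.ext hu.symm

/-- The map from the cluster poset. -/
def fwd : Cluster n (mm d p q) (p + 1) (p + 1 + d) → Pt n d p q :=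
  Quot.lift fwd0 (by
    rintro ⟨i, j⟩ ⟨i', j'⟩ ⟨h1, h2, h3⟩
    simp only at h1 h2 h3
    have h4 := i'.2
    have h5 : ((i : ℕ) + 1) * d ≤ n * d := Nat.mul_le_mul_right d (by omega)
    have h6 : ((i : ℕ) + 1) * d = i * d + d := Nat.succ_mul _ _
    have hz : (i : ℕ) * d + (j - p) < n * d + 1 := by omega
    rw [fwd0_Z i j (by omega) (by omega) ⟨i * d + (j - p), hz⟩ rfl,
      fwd0_Z i' j' (by omega) (by omega) ⟨i * d + (j - p), hz⟩ (by
        simp only
        rw [h1]
        omega)])

lemma fwd_A (i : Fin n) (j : Fin (mm d p q)) :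
    fwd (A i j : Cluster n (mm d p q) (p + 1) (p + 1 + d)) = fwd0 (i, j) := rfl

lemma fwd_surj (hn : 0 < n) (hd : 0 < d) :
    Function.Surjective (fwd : Cluster n (mm d p q) (p + 1) (p + 1 + d) → Pt n d p q) := by
  rintro (z | ⟨i, l⟩ | ⟨i, u⟩)
  · have hz := z.2
    rcases Nat.lt_or_ge (z : ℕ) (n * d) with h | h
    · have h1 : (z : ℕ) / d < n := by rwa [Nat.div_lt_iff_lt_mul hd]
      have h2 : (z : ℕ) % d < d := Nat.mod_lt _ hd
      refine ⟨A ⟨z / d, h1⟩ ⟨p + z % d, by simp only [mm]; omega⟩, ?_⟩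
      rw [fwd_A]
      apply fwd0_Z
      · simp
      · simp only; omega
      · simp only
        have := Nat.div_add_mod' (z : ℕ) d
        omega
    · refine ⟨A ⟨n - 1, by omega⟩ ⟨p + d, by simp only [mm]; omega⟩, ?_⟩
      rw [fwd_A]
      apply fwd0_Z
      · simp
      · simp
      · simp only
        have : (n - 1) * d + d = n * d := by
          rw [← Nat.succ_mul]
          congr 1
          omega
        omega
  · refine ⟨A i ⟨l, by have := l.2; simp only [mm]; omega⟩, ?_⟩
    rw [fwd_A, fwd0_L i _ l.2]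
    rfl
  · refine ⟨A i ⟨p + d + 1 + u, by have := u.2; simp only [mm]; omega⟩, ?_⟩
    rw [fwd_A, fwd0_U i _ (by simp only; omega) u (by simp only; omega)]
    rfl

lemma fwd_inj (hd : 0 < d) :
    Function.Injective (fwd : Cluster n (mm d p q) (p + 1) (p + 1 + d) → Pt n d p q) := by
  intro x y h
  obtain ⟨⟨i, j⟩, rfl⟩ := Quot.exists_rep x
  obtain ⟨⟨i', j'⟩, rfl⟩ := Quot.exists_rep y
  change fwd0 (i, j) = fwd0 (i', j') at h
  -- it is enough to treat `i ≤ i'` in the backbone case
  have key : ∀ (i i' : Fin n) (j j' : Fin (mm d p q)), p ≤ (j : ℕ) → (j : ℕ) ≤ p + d →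
      p ≤ (j' : ℕ) → (j' : ℕ) ≤ p + d → (i : ℕ) ≤ i' →
      (i : ℕ) * d + (j - p) = i' * d + (j' - p) →
      (Quot.mk (Glue n (mm d p q) (p + 1) (p + 1 + d)) (i, j)) = Quot.mk _ (i', j') := by
    intro i i' j j' h1 h2 h3 h4 h5 h6
    rcases h5.eq_or_lt with h7 | h7
    · have h8 : i = i' := Fin.ext h7
      subst h8
      have h9 : j = j' := Fin.ext (by omega)
      rw [h9]
    · have h8 : ((i : ℕ) + 1) * d ≤ i' * d := Nat.mul_le_mul_right d h7
      have h9 : ((i : ℕ) + 1) * d = i * d + d := Nat.succ_mul _ _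
      have h10 : (j : ℕ) = p + d := by omega
      have h11 : (j' : ℕ) = p := by omega
      have h12 : (i' : ℕ) * d = ((i : ℕ) + 1) * d := by omega
      have h13 : (i' : ℕ) = i + 1 := Nat.eq_of_mul_eq_mul_right hd h12
      apply Quot.sound
      exact ⟨h13, by simp only; omega, by simp only; omega⟩
  have hi := i.2
  have hi' := i'.2
  have hj := j.2
  have hj' := j'.2
  have s1 : ((i : ℕ) + 1) * d ≤ n * d := Nat.mul_le_mul_right d hi
  have s2 : ((i : ℕ) + 1) * d = i * d + d := Nat.succ_mul _ _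
  have s3 : ((i' : ℕ) + 1) * d ≤ n * d := Nat.mul_le_mul_right d hi'
  have s4 : ((i' : ℕ) + 1) * d = i' * d + d := Nat.succ_mul _ _
  rcases Nat.lt_or_ge (j : ℕ) p with c1 | c1
  · rw [fwd0_L i j c1] at h
    rcases Nat.lt_or_ge (j' : ℕ) p with c2 | c2
    · rw [fwd0_L i' j' c2] at h
      simp only [L, Sum.inr.injEq, Sum.inl.injEq, Prod.mk.injEq, Fin.mk.injEq] at h
      have h9 : j = j' := Fin.ext h.2
      rw [h.1, h9]
    · rcases Nat.lt_or_ge (p + d) (j' : ℕ) with c3 | c3
      · rw [fwd0_U i' j' c3 ⟨j' - p - d - 1, by simp only [mm] at hj'; omega⟩ rfl] at h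
        simp [L, U] at h
      · rw [fwd0_Z i' j' c2 c3 ⟨i' * d + (j' - p), by omega⟩ rfl] at h
        simp [L, Z] at h
  · rcases Nat.lt_or_ge (p + d) (j : ℕ) with c3 | c3
    · rw [fwd0_U i j c3 ⟨j - p - d - 1, by simp only [mm] at hj; omega⟩ rfl] at h
      rcases Nat.lt_or_ge (j' : ℕ) p with c2 | c2
      · rw [fwd0_L i' j' c2] at h
        simp [L, U] at h
      · rcases Nat.lt_or_ge (p + d) (j' : ℕ) with c4 | c4
        · rw [fwd0_U i' j' c4 ⟨j' - p - d - 1, by simp only [mm] at hj'; omega⟩ rfl] at h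
          simp only [U, Sum.inr.injEq, Prod.mk.injEq, Fin.mk.injEq] at h
          have h9 : j = j' := Fin.ext (by omega)
          rw [h.1, h9]
        · rw [fwd0_Z i' j' c2 c4 ⟨i' * d + (j' - p), by omega⟩ rfl] at h
          simp [U, Z] at h
    · rw [fwd0_Z i j c1 c3 ⟨i * d + (j - p), by omega⟩ rfl] at h
      rcases Nat.lt_or_ge (j' : ℕ) p with c2 | c2
      · rw [fwd0_L i' j' c2] at h
        simp [L, Z] at h
      · rcases Nat.lt_or_ge (p + d) (j' : ℕ) with c4 | c4
        · rw [fwd0_U i' j' c4 ⟨j' - p - d - 1, by simp only [mm] at hj'; omega⟩ rfl] at h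
          simp [U, Z] at h
        · rw [fwd0_Z i' j' c2 c4 ⟨i' * d + (j' - p), by omega⟩ rfl] at h
          simp only [Z, Sum.inl.injEq, Fin.mk.injEq] at h
          rcases Nat.le_total (i : ℕ) i' with c5 | c5
          · exact key i i' j j' c1 c3 c2 c4 c5 h
          · exact (key i' i j' j c2 c4 c1 c3 c5 h.symm).symm

/-- The equivalence with the model. -/
noncomputable def eqv (hn : 0 < n) (hd : 0 < d) :
    Cluster n (mm d p q) (p + 1) (p + 1 + d) ≃ Pt n d p q :=
  Equiv.ofBijective fwd ⟨fwd_inj hd, fwd_surj hn hd⟩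

lemma eqv_A (hn : 0 < n) (hd : 0 < d) (i : Fin n) (j : Fin (mm d p q)) :
    eqv hn hd (A i j : Cluster n (mm d p q) (p + 1) (p + 1 + d)) = fwd0 (i, j) := rfl

/-- The relation of a height function. -/
def rel (hn : 0 < n) (hd : 0 < d) (σ : Ord (Pt n d p q)) :
    Cluster n (mm d p q) (p + 1) (p + 1 + d) → Cluster n (mm d p q) (p + 1) (p + 1 + d) → Prop :=
  fun x y => σ (eqv hn hd x) < σ (eqv hn hd y)

lemma ht_rel (hn : 0 < n) (hd : 0 < d) (σ : Ord (Pt n d p q))
    (x : Cluster n (mm d p q) (p + 1) (p + 1 + d)) :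
    ht (rel hn hd σ) x = (σ (eqv hn hd x) : ℕ) := by
  classical
  rw [ht, ← card_lt_eq σ (eqv hn hd x)]
  rw [Nat.card_congr ((eqv hn hd).subtypeEquiv (p := fun y => rel hn hd σ y x)
    (q := fun y => σ y < σ (eqv hn hd x)) (fun y => Iff.rfl))]
  rw [Nat.card_eq_fintype_card, Fintype.card_subtype]

lemma rel_injective (hn : 0 < n) (hd : 0 < d) :
    Function.Injective (rel (p := p) (q := q) hn hd) := by
  intro σ σ' h
  apply ord_unique
  intro x y
  have h1 := congrFun (congrFun h ((eqv hn hd).symm x)) ((eqv hn hd).symm y)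
  simp only [rel, Equiv.apply_symm_apply, eq_iff_iff] at h1
  exact h1

lemma exists_rel (hn : 0 < n) (hd : 0 < d)
    (r : Cluster n (mm d p q) (p + 1) (p + 1 + d) → Cluster n (mm d p q) (p + 1) (p + 1 + d) → Prop)
    (hr : IsLinExt r) : ∃ σ, rel hn hd σ = r := by
  classical
  let e := eqv (p := p) (q := q) hn hd
  let κ : Pt n d p q → ℕ := fun x => #{y : Pt n d p q | r (e.symm y) (e.symm x)}
  have hκ : ∀ x y, r (e.symm x) (e.symm y) → κ x < κ y := by
    intro x y hxy
    apply Finset.card_lt_card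
    rw [Finset.ssubset_iff_of_subset]
    · refine ⟨x, ?_, ?_⟩
      · simpa using hxy
      · simpa using hr.irrefl _
    · intro z hz
      simp only [mem_filter, mem_univ, true_and] at hz ⊢
      exact hr.trans _ _ _ hz hxy
  have hinj : Function.Injective κ := by
    intro x y hxy
    rcases hr.total (e.symm x) (e.symm y) with h | h | h
    · have := hκ x y h
      omega
    · exact e.symm.injective h
    · have := hκ y x h
      omega
  obtain ⟨σ, hσ⟩ := exists_ord κ hinj
  refine ⟨σ, ?_⟩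
  funext x y
  apply propext
  show σ (e x) < σ (e y) ↔ r x y
  rw [hσ]
  constructor
  · intro h
    rcases hr.total x y with h1 | h1 | h1
    · exact h1
    · subst h1
      exact absurd h (lt_irrefl _)
    · have := hκ (e y) (e x) (by simpa using h1)
      omega
  · intro h
    exact hκ _ _ (by simpa using h)

/-- The two notions of linear extension agree. -/
lemma isLinExt_rel (hn : 0 < n) (hd : 0 < d) (σ : Ord (Pt n d p q)) :
    IsLinExt (rel hn hd σ) ↔ IsExt σ := by
  have h0 : IsLinExt (rel hn hd σ) ↔ ∀ (i : Fin n) (j j' : Fin (mm d p q)), j < j' →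
      σ (fwd0 (i, j)) < σ (fwd0 (i, j')) := by
    constructor
    · intro h i j j' hj
      exact h.extends_order (A i j) (A i j') (Relation.TransGen.single ⟨i, j, j', hj, rfl, rfl⟩)
    · intro h
      refine ⟨fun x => lt_irrefl _, fun x y z => lt_trans, fun x y => ?_, fun x y hxy => ?_⟩
      · rcases lt_trichotomy (σ (eqv hn hd x)) (σ (eqv hn hd y)) with h1 | h1 | h1
        · exact Or.inl h1
        · exact Or.inr (Or.inl ((eqv hn hd).injective (σ.injective h1)))
        · exact Or.inr (Or.inr h1)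
      · induction hxy with
        | single h1 =>
          obtain ⟨i, j, j', hj, rfl, rfl⟩ := h1
          exact h i j j' hj
        | tail _ h1 ih =>
          obtain ⟨i, j, j', hj, rfl, rfl⟩ := h1
          exact lt_trans ih (h i j j' hj)
  rw [h0]
  have hbd : ∀ i : Fin n, ((i : ℕ) + 1) * d ≤ n * d ∧ ((i : ℕ) + 1) * d = i * d + d :=
    fun i => ⟨Nat.mul_le_mul_right d i.2, Nat.succ_mul _ _⟩
  constructor
  · intro h
    -- consecutive backbone elements
    have hstep : ∀ z : ℕ, ∀ hz : z + 1 < n * d + 1,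
        σ (Z ⟨z, by omega⟩) < σ (Z ⟨z + 1, hz⟩) := by
      intro z hz
      have h1 : z / d < n := by
        rw [Nat.div_lt_iff_lt_mul hd]
        omega
      have h2 : z % d < d := Nat.mod_lt _ hd
      have h3 := Nat.div_add_mod' z d
      have := h ⟨z / d, h1⟩ ⟨p + z % d, by simp only [mm]; omega⟩
        ⟨p + z % d + 1, by simp only [mm]; omega⟩ (by simp [Fin.lt_def])
      rw [fwd0_Z _ _ (by simp) (by simp only; omega) ⟨z, by omega⟩ (by simp only; omega),
        fwd0_Z _ _ (by simp only; omega) (by simp only; omega) ⟨z + 1, hz⟩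
          (by simp only; omega)] at this
      exact this
    have hmono : ∀ (k : ℕ) (z : ℕ) (hz : z + k + 1 < n * d + 1),
        σ (Z ⟨z, by omega⟩) < σ (Z ⟨z + k + 1, hz⟩) := by
      intro k
      induction k with
      | zero =>
        intro z hz
        exact hstep z hz
      | succ k ih =>
        intro z hz
        exact lt_trans (ih z (by omega)) (hstep (z + k + 1) hz)
    refine ⟨?_, ?_, ?_⟩
    · rintro (x | x | x) (y | y | y) hxy hpos
      · have hlt : (x : ℕ) < y := hpos
        have hy := y.2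
        have := hmono (y - x - 1) x (by omega)
        have e1 : (⟨(x : ℕ) + (y - x - 1) + 1, by omega⟩ : Fin (n * d + 1)) = y :=
          Fin.ext (by simp only; omega)
        rw [e1] at this
        exact this
      · simp [cls] at hxy
      · simp [cls] at hxy
      · simp [cls] at hxy
      · obtain ⟨i, l⟩ := x
        obtain ⟨i', l'⟩ := y
        simp only [cls, Sum.inr.injEq, Sum.inl.injEq] at hxy
        subst hxy
        have hlt : (l : ℕ) < l' := hpos
        have hl' := l'.2
        have := h i ⟨l, by simp only [mm]; omega⟩ ⟨l', by simp only [mm]; omega⟩ hlt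
        rw [fwd0_L _ _ l.2, fwd0_L _ _ l'.2] at this
        exact this
      · simp [cls] at hxy
      · simp [cls] at hxy
      · simp [cls] at hxy
      · obtain ⟨i, u⟩ := x
        obtain ⟨i', u'⟩ := y
        simp only [cls, Sum.inr.injEq] at hxy
        subst hxy
        have hlt : (u : ℕ) < u' := hpos
        have hu' := u'.2
        have := h i ⟨p + d + 1 + u, by simp only [mm]; omega⟩
          ⟨p + d + 1 + u', by simp only [mm]; omega⟩ (by simp only [Fin.lt_def]; omega)
        rw [fwd0_U _ _ (by simp only; omega) u (by simp only; omega),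
          fwd0_U _ _ (by simp only; omega) u' (by simp only; omega)] at this
        exact this
    · intro i l
      have hl := l.2
      have := h i ⟨l, by simp only [mm]; omega⟩ ⟨p, by simp only [mm]; omega⟩ hl
      rw [fwd0_L _ _ l.2, fwd0_Z i ⟨p, _⟩ (by simp) (by simp) (zL i) (by simp [zL])] at this
      exact this
    · intro i u
      have hu := u.2
      have := h i ⟨p + d, by simp only [mm]; omega⟩
        ⟨p + d + 1 + u, by simp only [mm]; omega⟩ (by simp only [Fin.lt_def]; omega)
      rw [fwd0_U i ⟨p + d + 1 + u, _⟩ (by simp only; omega) u (by simp only; omega),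
        fwd0_Z i ⟨p + d, _⟩ (by simp) (by simp) (zU i) (by
          have := (hbd i).2
          simp only [zU]
          omega)] at this
      exact this
  · rintro ⟨hs, hL, hU⟩ i j j' hjj
    have hjj' : (j : ℕ) < j' := hjj
    have hj' := j'.2
    simp only [mm] at hj'
    obtain ⟨b1, b2⟩ := hbd i
    rcases Nat.lt_or_ge (j : ℕ) p with c1 | c1
    · rw [fwd0_L i j c1]
      rcases Nat.lt_or_ge (j' : ℕ) p with c2 | c2
      · rw [fwd0_L i j' c2]
        exact hs _ _ rfl hjj'
      · rcases Nat.lt_or_ge (p + d) (j' : ℕ) with c3 | c3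
        · rw [fwd0_U i j' c3 ⟨j' - p - d - 1, by omega⟩ rfl]
          refine lt_trans (hL i _) (lt_of_le_of_lt ?_ (hU i _))
          rw [sorted_Z_le hs, Fin.le_def]
          simp only [zL, zU]
          omega
        · rw [fwd0_Z i j' c2 c3 ⟨i * d + (j' - p), by omega⟩ rfl]
          refine lt_of_lt_of_le (hL i _) ?_
          rw [sorted_Z_le hs, Fin.le_def]
          simp only [zL]
          omega
    · rcases Nat.lt_or_ge (p + d) (j : ℕ) with c3 | c3
      · rw [fwd0_U i j c3 ⟨j - p - d - 1, by omega⟩ rfl,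
          fwd0_U i j' (by omega) ⟨j' - p - d - 1, by omega⟩ rfl]
        have hlt : (j : ℕ) - p - d - 1 < j' - p - d - 1 := by omega
        exact hs (U i _) (U i _) rfl hlt
      · rw [fwd0_Z i j c1 c3 ⟨i * d + (j - p), by omega⟩ rfl]
        rcases Nat.lt_or_ge (p + d) (j' : ℕ) with c4 | c4
        · rw [fwd0_U i j' c4 ⟨j' - p - d - 1, by omega⟩ rfl]
          refine lt_of_le_of_lt ?_ (hU i _)
          rw [sorted_Z_le hs, Fin.le_def]
          simp only [zU]
          omega
        · rw [fwd0_Z i j' (by omega) c4 ⟨i * d + (j' - p), by omega⟩ rfl, sorted_Z hs, Fin.lt_def]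
          simp only
          omega

end Pool.Agent.ClusterPoset
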